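import Pool.Agent.Lib.MP_097535_lc.NIP.TP2

/-!
# Coding of the natural numbers

A definable family of finite sets that contains generic sets of every finite size, together with a
set all of whose finite traces are realised and in which the translates of a non periodic pattern
recur, defines the set of the positive integers.
-/

set_option autoImplicit false

namespace Pool.Agent.Lib.MP_097535_lc.NIP

open Set Filter

section Cod

variable {K : Type*} [AddCommGroupWithOne K]

/-- The coded set: `y` is in `D_{w 3}` and for some `b` in `F p` the set `G - b` has the same trace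
on `D_{w 2}` as the set `H + y`, where `G = D_{w 0} - w 1` and `H = D_{w 4} - w 5`. -/
def ICode {r : ℕ} (D : K → K → Prop) (F : (Fin r → K) → K → Prop) (p : Fin r → K)
    (w : Fin 6 → K) (y : K) : Prop :=
  D y (w 3) ∧ ∃ b, F p b ∧ ∀ a, D (a + y) (w 2) →
    (D (w 1 + (b + (a + y))) (w 0) ↔ D (w 5 + a) (w 4))

theorem iCode_def (S : DefSys K)
    (hadd : ∀ (ι : Type) (f g : (ι → K) → K), S.Tm f → S.Tm g → S.Tm fun p => f p + g p)
    {D : K → K → Prop} (hD : S.Def fun q : Fin 2 → K => D (q 0) (q 1)) {r : ℕ}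
    {F : (Fin r → K) → K → Prop}
    (hF : S.Def fun q : Option (Fin r) → K => F (fun i => q (some i)) (q none)) {κ : Type}
    {p : (κ → K) → Fin r → K} {w : (κ → K) → Fin 6 → K} {y : (κ → K) → K}
    (hp : ∀ i, S.Tm fun q => p q i) (hw : ∀ j, S.Tm fun q => w q j) (hy : S.Tm y) :
    S.Def fun q : κ → K => ICode D F (p q) (w q) (y q) := by
  have hF' : ∀ {ι : Type} {P : (ι → K) → Fin r → K} {b : (ι → K) → K},
      (∀ i, S.Tm fun q => P q i) → S.Tm b → S.Def fun q => F (P q) (b q) := by
    intro ι P b hP hb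
    refine S.subst (P := fun q : Option (Fin r) → K => F (fun i => q (some i)) (q none))
      (F := fun q o => o.elim (b q) (P q)) hF ?_
    rintro (_ | i)
    · exact hb
    · exact hP i
  have h0 : S.Def fun q : (Fin r ⊕ Fin 6) ⊕ Unit → K =>
      ICode D F (fun i => q (.inl (.inl i))) (fun j => q (.inl (.inr j))) (q (.inr ())) := by
    unfold ICode
    refine S.and (S.sub2 hD (S.var _) (S.var _)) ?_
    apply S.ex (P := fun b (q : (Fin r ⊕ Fin 6) ⊕ Unit → K) =>
      F (fun i => q (.inl (.inl i))) b ∧ ∀ a, D (a + q (.inr ())) (q (.inl (.inr 2))) →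
        (D (q (.inl (.inr 1)) + (b + (a + q (.inr ())))) (q (.inl (.inr 0))) ↔
          D (q (.inl (.inr 5)) + a) (q (.inl (.inr 4)))))
    refine S.and (hF' (fun i => S.var _) (S.var _)) ?_
    apply S.all (P := fun a (q : Option ((Fin r ⊕ Fin 6) ⊕ Unit) → K) =>
      D (a + q (some (.inr ()))) (q (some (.inl (.inr 2)))) →
        (D (q (some (.inl (.inr 1))) + (q none + (a + q (some (.inr ())))))
          (q (some (.inl (.inr 0)))) ↔
          D (q (some (.inl (.inr 5))) + a) (q (some (.inl (.inr 4))))))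
    refine S.imp (S.sub2 hD (hadd _ _ _ (S.var _) (S.var _)) (S.var _)) (S.iff ?_ ?_)
    · exact S.sub2 hD (hadd _ _ _ (S.var _) (hadd _ _ _ (S.var _)
        (hadd _ _ _ (S.var _) (S.var _)))) (S.var _)
    · exact S.sub2 hD (hadd _ _ _ (S.var _) (S.var _)) (S.var _)
  refine S.subst (P := fun q : (Fin r ⊕ Fin 6) ⊕ Unit → K =>
    ICode D F (fun i => q (.inl (.inl i))) (fun j => q (.inl (.inr j))) (q (.inr ())))
    (F := fun q => Sum.elim (Sum.elim (p q) (w q)) fun _ => y q) h0 ?_
  rintro ((i | j) | _)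
  · exact hp i
  · exact hw j
  · exact hy

/-- The element `x` ends a coded chain `1, 2, …, x`. -/
def NCode {r : ℕ} (D : K → K → Prop) (F : (Fin r → K) → K → Prop) (x : K) : Prop :=
  ∃ (p : Fin r → K) (w : Fin 6 → K), ICode D F p w 1 ∧ ICode D F p w x ∧
    ∀ y, ICode D F p w y → y ≠ x → ICode D F p w (y + 1)

theorem nCode_def (S : DefSys K)
    (hadd : ∀ (ι : Type) (f g : (ι → K) → K), S.Tm f → S.Tm g → S.Tm fun p => f p + g p)
    {D : K → K → Prop} (hD : S.Def fun q : Fin 2 → K => D (q 0) (q 1)) {r : ℕ}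
    {F : (Fin r → K) → K → Prop}
    (hF : S.Def fun q : Option (Fin r) → K => F (fun i => q (some i)) (q none)) :
    S.Def fun q : Unit → K => NCode D F (q ()) := by
  have h0 : S.Def fun q : (Unit ⊕ Fin r) ⊕ Fin 6 → K =>
      ICode D F (fun i => q (.inl (.inr i))) (fun j => q (.inr j)) 1 ∧
      ICode D F (fun i => q (.inl (.inr i))) (fun j => q (.inr j)) (q (.inl (.inl ()))) ∧
      ∀ y, ICode D F (fun i => q (.inl (.inr i))) (fun j => q (.inr j)) y →
        y ≠ q (.inl (.inl ())) →
        ICode D F (fun i => q (.inl (.inr i))) (fun j => q (.inr j)) (y + 1) := by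
    refine S.and (iCode_def S hadd hD hF (fun i => S.var _) (fun j => S.var _) (S.const 1))
      (S.and (iCode_def S hadd hD hF (fun i => S.var _) (fun j => S.var _) (S.var _)) ?_)
    apply S.all (P := fun y (q : (Unit ⊕ Fin r) ⊕ Fin 6 → K) =>
      ICode D F (fun i => q (.inl (.inr i))) (fun j => q (.inr j)) y →
        y ≠ q (.inl (.inl ())) →
        ICode D F (fun i => q (.inl (.inr i))) (fun j => q (.inr j)) (y + 1))
    refine S.imp (iCode_def S hadd hD hF (fun i => S.var _) (fun j => S.var _) (S.var _))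
      (S.imp (S.not (S.eq (S.var _) (S.var _))) ?_)
    exact iCode_def S hadd hD hF (fun i => S.var _) (fun j => S.var _)
      (hadd _ _ _ (S.var _) (S.const 1))
  have h1 : S.Def fun q : Unit ⊕ Fin r → K => ∃ w : Fin 6 → K,
      ICode D F (fun i => q (.inr i)) w 1 ∧
      ICode D F (fun i => q (.inr i)) w (q (.inl ())) ∧
      ∀ y, ICode D F (fun i => q (.inr i)) w y → y ≠ q (.inl ()) →
        ICode D F (fun i => q (.inr i)) w (y + 1) :=
    S.exs (X := fun (q : Unit ⊕ Fin r → K) (w : Fin 6 → K) =>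
      ICode D F (fun i => q (.inr i)) w 1 ∧
      ICode D F (fun i => q (.inr i)) w (q (.inl ())) ∧
      ∀ y, ICode D F (fun i => q (.inr i)) w y → y ≠ q (.inl ()) →
        ICode D F (fun i => q (.inr i)) w (y + 1)) h0
  exact S.exs (X := fun (q : Unit → K) (p : Fin r → K) => ∃ w : Fin 6 → K,
      ICode D F p w 1 ∧ ICode D F p w (q ()) ∧
      ∀ y, ICode D F p w y → y ≠ q () → ICode D F p w (y + 1)) h1

/-- Only positive integers end coded chains. -/
theorem nCode_nat [CharZero K] {D : K → K → Prop} (hfin : ∀ y, {x | D x y}.Finite) {r : ℕ}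
    {F : (Fin r → K) → K → Prop} {x : K} (hx : NCode D F x) : ∃ n : ℕ, 1 ≤ n ∧ x = n := by
  obtain ⟨p, w, h1, hx, hs⟩ := hx
  by_contra hcon
  have hne : ∀ n : ℕ, 1 ≤ n → (n : K) ≠ x := fun n hn h => hcon ⟨n, hn, h.symm⟩
  have hall : ∀ n : ℕ, ICode D F p w ((n + 1 : ℕ) : K) := by
    intro n
    induction n with
    | zero => simpa using h1
    | succ n ih =>
      have := hs _ ih (hne _ (by omega))
      rw [Nat.cast_succ (n + 1)]
      exact this
  refine Set.infinite_of_injective_forall_mem (f := fun n : ℕ => ((n + 1 : ℕ) : K)) ?_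
    (fun n => (hall n).1) (hfin (w 3))
  intro a b hab
  have := Nat.cast_injective hab
  omega

/-- **Coding.** Every positive integer ends a coded chain. -/
theorem nCode_of_nat [CharZero K] (S : DefSys K)
    (hadd : ∀ (ι : Type) (f g : (ι → K) → K), S.Tm f → S.Tm g → S.Tm fun p => f p + g p)
    {D : K → K → Prop} (hD : S.Def fun q : Fin 2 → K => D (q 0) (q 1))
    (hfin : ∀ y, {x | D x y}.Finite) (hcof : ∀ x, {y | ¬ D x y}.Finite)
    {B C : K → Bool}
    (hB : ∀ A : Finset K, ∃ y t, ∀ a ∈ A, (D (t + a) y ↔ B a = true))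
    (hC : ∀ A : Finset K, ∃ y t, ∀ a ∈ A, (D (t + a) y ↔ C a = true))
    (hCB : ∀ A : Finset K, {u | ∀ a ∈ A, B (a + u) = C a}.Infinite)
    (hdist : ∀ x x' : K, x ≠ x' → ∃ a, C (a - x) ≠ C (a - x'))
    {r : ℕ} {F : (Fin r → K) → K → Prop}
    (hgen : ∀ (m : ℕ) (P : (Fin m → K) → Prop), (∀ᶠ u in L K m, P u) →
      ∃ (p : Fin r → K) (b : Fin m → K), P b ∧ ∀ x, F p x ↔ ∃ i, x = b i)
    (m : ℕ) : NCode D F ((m + 1 : ℕ) : K) := by
  classical
  have hinf : Infinite K := Infinite.of_injective (fun n : ℕ => (n : K)) Nat.cast_injective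
  have hwin : ∀ A : Finset K, ∃ w, ∀ x ∈ A, D x w := by
    intro A
    have h1 : (⋃ a ∈ (A : Set K), {y | ¬ D a y}).Finite :=
      Set.Finite.biUnion A.finite_toSet fun a _ => hcof _
    obtain ⟨y, hy⟩ := h1.infinite_compl.nonempty
    refine ⟨y, fun a ha => ?_⟩
    by_contra hcon
    exact hy (mem_biUnion (Finset.mem_coe.2 ha) hcon)
  -- the integers `1, …, m + 1`
  let e : Fin (m + 1) → K := fun i => ((i : ℕ) + 1 : ℕ)
  have he : Function.Injective e := by
    intro i j hij
    have := Nat.cast_injective hij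
    ext
    omega
  obtain ⟨u1, hu1⟩ := hwin (Finset.univ.image e)
  have hu1' : ∀ i, D (e i) u1 := fun i => hu1 _ (Finset.mem_image_of_mem _ (Finset.mem_univ i))
  set W1 : Finset K := (hfin u1).toFinset with hW1
  have hW1m : ∀ x, x ∈ W1 ↔ D x u1 := fun x => by simp [hW1]
  -- a window on which the translates of the pattern differ
  have hch : ∀ x x' : K, ∃ a, x ≠ x' → C (a - x) ≠ C (a - x') := by
    intro x x'
    by_cases h : x = x'
    · exact ⟨0, fun hn => absurd h hn⟩
    · obtain ⟨a, ha⟩ := hdist x x' h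
      exact ⟨a, fun _ => ha⟩
  choose s hs using hch
  obtain ⟨u, hu⟩ := hwin (W1.biUnion fun x => Finset.univ.image fun i => s x (e i))
  have hu' : ∀ x, D x u1 → ∀ i, D (s x (e i)) u := by
    intro x hx i
    apply hu
    rw [Finset.mem_biUnion]
    exact ⟨x, (hW1m x).2 hx, Finset.mem_image_of_mem _ (Finset.mem_univ i)⟩
  set W : Finset K := (hfin u).toFinset with hW
  have hWm : ∀ x, x ∈ W ↔ D x u := fun x => by simp [hW]
  -- the code of the pattern
  obtain ⟨y0, t0, hz0⟩ := hC (W.biUnion fun a => W1.image fun x => a - x)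
  have hz0' : ∀ a x, D (a + x) u → D x u1 → (D (t0 + a) y0 ↔ C a = true) := by
    intro a x ha hx
    apply hz0
    rw [Finset.mem_biUnion]
    refine ⟨a + x, (hWm _).2 ha, ?_⟩
    rw [Finset.mem_image]
    exact ⟨x, (hW1m x).2 hx, by abel⟩
  -- the generic predicate
  have hdef : S.Def fun b : Fin (m + 1) → K =>
      ∃ y, ∃ t, ∀ i, ∀ a ∈ W, (D (t + (b i + a)) y ↔ C (a - e i) = true) := by
    apply S.ex (P := fun y (b : Fin (m + 1) → K) =>
      ∃ t, ∀ i, ∀ a ∈ W, (D (t + (b i + a)) y ↔ C (a - e i) = true))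
    apply S.ex (P := fun t (q : Option (Fin (m + 1)) → K) =>
      ∀ i, ∀ a ∈ W, (D (t + (q (some i) + a)) (q none) ↔ C (a - e i) = true))
    refine S.fintype_all (P := fun i (q : Option (Option (Fin (m + 1))) → K) =>
      ∀ a ∈ W, (D (q none + (q (some (some i)) + a)) (q (some none)) ↔ C (a - e i) = true))
      fun i => ?_
    refine S.finset_all W (P := fun a (q : Option (Option (Fin (m + 1))) → K) =>
      (D (q none + (q (some (some i)) + a)) (q (some none)) ↔ C (a - e i) = true)) fun a => ?_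
    exact S.iff (S.sub2 hD (hadd _ _ _ (S.var _) (hadd _ _ _ (S.var _) (S.const a)))
      (S.var _)) (S.prop (C (a - e i) = true))
  have hev : ∀ᶠ b in L K (m + 1),
      ∃ y, ∃ t, ∀ i, ∀ a ∈ W, (D (t + (b i + a)) y ↔ C (a - e i) = true) := by
    refine (S.ultra hdef).resolve_right fun hneg => ?_
    obtain ⟨b, hb, hbe⟩ := exists_in (m + 1)
      (fun i => {b | ∀ a ∈ W, B (b + a) = C (a - e i)}) (fun i => by
        have h1 := hCB (W.image fun a => a - e i)
        have hinj : Function.Injective fun v : K => v - e i := fun v v' h => by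
          simpa using h
        refine Set.Infinite.mono ?_ (h1.image hinj.injOn)
        rintro _ ⟨v, hv, rfl⟩ a ha
        have h2 := hv (a - e i) (Finset.mem_image_of_mem _ ha)
        rw [← h2]
        have h3 : v - e i + a = a - e i + v := by abel
        exact congrArg B h3) hneg
    apply hb
    obtain ⟨y, t, hyt⟩ := hB ((Finset.univ ×ˢ W).image fun q : Fin (m + 1) × K => b q.1 + q.2)
    refine ⟨y, t, fun i a ha => ?_⟩
    rw [hyt (b i + a) (Finset.mem_image.2 ⟨(i, a), by simp [ha], rfl⟩), hbe i a ha]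
  obtain ⟨p, b, ⟨y', t', hyt⟩, hF⟩ := hgen _ _ hev
  have hI : ∀ y, ICode D F p ![y', t', u, u1, y0, t0] y ↔ ∃ i, y = e i := by
    intro y
    constructor
    · rintro ⟨hy, c, hc, hca⟩
      obtain ⟨i, rfl⟩ := (hF c).1 hc
      refine ⟨i, ?_⟩
      by_contra hne
      have hy' : D y u1 := hy
      have h1 := hu' y hy' i
      have h2 := hca (s y (e i) - y) (by simpa using h1)
      have h3 := hyt i (s y (e i)) ((hWm _).2 h1)
      have h4 := hz0' (s y (e i) - y) y (by simpa using h1) hy'
      simp only [sub_add_cancel, Matrix.cons_val_zero, Matrix.cons_val_one, Matrix.cons_val] at h2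
      rw [h3, h4] at h2
      exact hs y (e i) hne (Bool.eq_iff_iff.2 h2.symm)
    · rintro ⟨i, rfl⟩
      refine ⟨hu1' i, b i, (hF _).2 ⟨i, rfl⟩, fun a ha => ?_⟩
      have ha' : D (a + e i) u := ha
      have h3 := hyt i (a + e i) ((hWm _).2 ha')
      have h4 := hz0' a (e i) ha' (hu1' i)
      simp only [Matrix.cons_val_zero, Matrix.cons_val_one, Matrix.cons_val]
      rw [h3, h4]
      simp
  refine ⟨p, ![y', t', u, u1, y0, t0], ?_, ?_, ?_⟩
  · rw [hI]
    exact ⟨0, by simp [e]⟩
  · rw [hI]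
    exact ⟨Fin.last m, by simp [e]⟩
  · intro y hy hne
    rw [hI] at hy ⊢
    obtain ⟨i, rfl⟩ := hy
    have hi : (i : ℕ) + 1 < m + 1 := by
      by_contra hcon
      apply hne
      have : (i : ℕ) = m := by omega
      simp [e, this]
    exact ⟨⟨(i : ℕ) + 1, hi⟩, by simp [e]⟩

/-- **The contradiction.** In a system of definable predicates whose definable subsets of the line
are finite or cofinite there is no definable family with generic members of every finite size. -/
theorem cod [CharZero K] (S : DefSys K)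
    (hadd : ∀ (ι : Type) (f g : (ι → K) → K), S.Tm f → S.Tm g → S.Tm fun p => f p + g p)
    {D : K → K → Prop} (hD : S.Def fun q : Fin 2 → K => D (q 0) (q 1))
    (hfin : ∀ y, {x | D x y}.Finite) (hcof : ∀ x, {y | ¬ D x y}.Finite)
    {B C : K → Bool}
    (hB : ∀ A : Finset K, ∃ y t, ∀ a ∈ A, (D (t + a) y ↔ B a = true))
    (hC : ∀ A : Finset K, ∃ y t, ∀ a ∈ A, (D (t + a) y ↔ C a = true))
    (hCB : ∀ A : Finset K, {u | ∀ a ∈ A, B (a + u) = C a}.Infinite)
    (hdist : ∀ x x' : K, x ≠ x' → ∃ a, C (a - x) ≠ C (a - x'))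
    {r : ℕ} {F : (Fin r → K) → K → Prop}
    (hF : S.Def fun q : Option (Fin r) → K => F (fun i => q (some i)) (q none))
    (hgen : ∀ (m : ℕ) (P : (Fin m → K) → Prop), (∀ᶠ u in L K m, P u) →
      ∃ (p : Fin r → K) (b : Fin m → K), P b ∧ ∀ x, F p x ↔ ∃ i, x = b i) : False := by
  have h1 := nCode_of_nat S hadd hD hfin hcof hB hC hCB hdist hgen
  rcases S.min (nCode_def S hadd hD hF) with h | h
  · rw [eventually_cofinite] at h
    refine Set.infinite_of_injective_forall_mem (f := fun n : ℕ => -(n : K)) ?_ ?_ h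
    · intro a b hab
      exact Nat.cast_injective (neg_injective hab)
    · intro n hn
      obtain ⟨k, hk, hnk⟩ := nCode_nat hfin hn
      have h2 : ((k + n : ℕ) : K) = 0 := by
        rw [Nat.cast_add, ← hnk]
        simp
      have h3 := Nat.cast_eq_zero.1 h2
      omega
  · rw [eventually_cofinite] at h
    refine Set.infinite_of_injective_forall_mem (f := fun n : ℕ => ((n + 1 : ℕ) : K)) ?_ ?_ h
    · intro a b hab
      have := Nat.cast_injective hab
      omega
    · intro n
      simp only [mem_ofPred_eq, not_not]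
      exact h1 n

end Cod

end Pool.Agent.Lib.MP_097535_lc.NIP
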