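import Pool.Agent.Lib.MP_097535_lc.FULL.Defs
import Pool.Agent.Lib.MP_097535_lc.NIP.TP2

/-!
# Definability of the coding family
-/

set_option autoImplicit false

namespace Pool.Agent.Lib.MP_097535_lc.FULL

open Set Filter Pool.Agent.Lib.MP_097535_lc.NIP

section FamDef

variable {K : Type*} [Field K]

/-- The sections of a relation. -/
def secs (D : K → K → Prop) (y : K) : Set K := {x | D x y}

/-- The windows on which a translate of a member containing `0` and not `1` has period `h`. -/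
def YYs (D : K → K → Prop) (h : K) : Set K :=
  {w | ∃ y t, D t y ∧ ¬ D (t + 1) y ∧ ∀ x, D x w → (D (t + (x + h)) y ↔ D (t + x) y)}

variable (S : DefSys K)
  (hadd : ∀ (ι : Type) (f g : (ι → K) → K), S.Tm f → S.Tm g → S.Tm fun p => f p + g p)
  (hsub : ∀ (ι : Type) (f g : (ι → K) → K), S.Tm f → S.Tm g → S.Tm fun p => f p - g p)
  {D : K → K → Prop} (hD : S.Def fun q : Fin 2 → K => D (q 0) (q 1))

include hD in
theorem dZ0 : S.Def fun q : Fin 2 → K => q 0 ∈ Z0 (secs D) (q 1) :=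
  S.or (S.sub2 hD (S.var 0) (S.var 1)) (S.or (S.not (S.sub2 hD (S.var 1) (S.var 0)))
    (S.eq (S.var 0) (S.var 1)))

include hD in
theorem dX1 : S.Def fun q : Fin 2 → K => q 0 ∈ X1 (secs D) (q 1) := by
  apply S.ex (P := fun a (q : Fin 2 → K) => a ∈ Z0 (secs D) (q 1) ∧
    ∃ b ∈ Z0 (secs D) a, q 0 ∈ Z0 (secs D) b)
  refine S.and (S.sub2 (R := fun x y => x ∈ Z0 (secs D) y) (dZ0 S hD) (S.var _) (S.var _)) ?_
  apply S.ex (P := fun b (q : Option (Fin 2) → K) => b ∈ Z0 (secs D) (q none) ∧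
    q (some 0) ∈ Z0 (secs D) b)
  exact S.and (S.sub2 (R := fun x y => x ∈ Z0 (secs D) y) (dZ0 S hD) (S.var _) (S.var _))
    (S.sub2 (R := fun x y => x ∈ Z0 (secs D) y) (dZ0 S hD) (S.var _) (S.var _))

include hadd hD in
theorem dY : S.Def fun q : Fin 2 → K => q 0 ∈ YYs D (q 1) := by
  apply S.ex (P := fun y (q : Fin 2 → K) => ∃ t, D t y ∧ ¬ D (t + 1) y ∧
    ∀ x, D x (q 0) → (D (t + (x + q 1)) y ↔ D (t + x) y))
  apply S.ex (P := fun t (q : Option (Fin 2) → K) => D t (q none) ∧ ¬ D (t + 1) (q none) ∧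
    ∀ x, D x (q (some 0)) → (D (t + (x + q (some 1))) (q none) ↔ D (t + x) (q none)))
  refine S.and (S.sub2 hD (S.var _) (S.var _)) (S.and (S.not (S.sub2 hD
    (hadd _ _ _ (S.var _) (S.const 1)) (S.var _))) ?_)
  apply S.all (P := fun x (q : Option (Option (Fin 2)) → K) => D x (q (some (some 0))) →
    (D (q none + (x + q (some (some 1)))) (q (some none)) ↔ D (q none + x) (q (some none))))
  exact S.imp (S.sub2 hD (S.var _) (S.var _)) (S.iff
    (S.sub2 hD (hadd _ _ _ (S.var _) (hadd _ _ _ (S.var _) (S.var _))) (S.var _))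
    (S.sub2 hD (hadd _ _ _ (S.var _) (S.var _)) (S.var _)))

include hadd hsub hD in
theorem dVV : S.Def fun q : Fin 2 → K => q 0 ∈ VV (YYs D) (q 1) := by
  have h : ∀ {f : (Fin 2 → K) → K}, S.Tm f → S.Def fun q => f q ∈ YYs D (q 1) := fun hf =>
    S.sub2 (R := fun x y => x ∈ YYs D y) (dY S hadd hD) hf (S.var 1)
  exact S.and (S.or (h (hsub _ _ _ (S.var 0) (S.const 1)))
    (S.eq (hsub _ _ _ (S.var 0) (S.const 1)) (S.const 0)))
    (S.not (S.or (h (S.var 0)) (S.eq (S.var 0) (S.const 0))))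

include hadd hsub hD in
theorem dX2 : S.Def fun q : Fin 2 → K => q 0 ∈ X2 (secs D) (YYs D) (q 1) := by
  apply S.ex (P := fun b' (q : Fin 2 → K) => b' ∈ Z0 (secs D) (q 1) ∧ b' ≠ q 1 ∧
    ∃ v, (v ∈ VV (YYs D) (b' - q 1) ∨ v ∈ VV (YYs D) (q 1 - b')) ∧ ∃ x ∈ secs D v,
      ¬ (x ∈ secs D (q 0) ∧ x + (b' - q 1) ∈ secs D (q 0) ∧ x + (q 1 - b') ∈ secs D (q 0)))
  refine S.and (S.sub2 (R := fun x y => x ∈ Z0 (secs D) y) (dZ0 S hD) (S.var _) (S.var _))
    (S.and (S.not (S.eq (S.var _) (S.var _))) ?_)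
  apply S.ex (P := fun v (q : Option (Fin 2) → K) =>
    (v ∈ VV (YYs D) (q none - q (some 1)) ∨ v ∈ VV (YYs D) (q (some 1) - q none)) ∧
      ∃ x ∈ secs D v, ¬ (x ∈ secs D (q (some 0)) ∧ x + (q none - q (some 1)) ∈ secs D (q (some 0)) ∧
        x + (q (some 1) - q none) ∈ secs D (q (some 0))))
  refine S.and (S.or
    (S.sub2 (R := fun x y => x ∈ VV (YYs D) y) (dVV S hadd hsub hD) (S.var _)
      (hsub _ _ _ (S.var _) (S.var _)))
    (S.sub2 (R := fun x y => x ∈ VV (YYs D) y) (dVV S hadd hsub hD) (S.var _)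
      (hsub _ _ _ (S.var _) (S.var _)))) ?_
  apply S.ex (P := fun x (q : Option (Option (Fin 2)) → K) => x ∈ secs D (q none) ∧
    ¬ (x ∈ secs D (q (some (some 0))) ∧
      x + (q (some none) - q (some (some 1))) ∈ secs D (q (some (some 0))) ∧
        x + (q (some (some 1)) - q (some none)) ∈ secs D (q (some (some 0)))))
  exact S.and (S.sub2 hD (S.var _) (S.var _)) (S.not (S.and (S.sub2 hD (S.var _) (S.var _))
    (S.and (S.sub2 hD (hadd _ _ _ (S.var _) (hsub _ _ _ (S.var _) (S.var _))) (S.var _))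
      (S.sub2 hD (hadd _ _ _ (S.var _) (hsub _ _ _ (S.var _) (S.var _))) (S.var _)))))

include hadd hsub hD in
theorem dX3 : S.Def fun q : Fin 2 → K => q 0 ∈ X3 (secs D) (YYs D) (q 1) := by
  apply S.ex (P := fun b' (q : Fin 2 → K) => b' ∈ Z0 (secs D) (q 1) ∧
    q 0 ∈ X2 (secs D) (YYs D) b')
  exact S.and (S.sub2 (R := fun x y => x ∈ Z0 (secs D) y) (dZ0 S hD) (S.var _) (S.var _))
    (S.sub2 (R := fun x y => x ∈ X2 (secs D) (YYs D) y) (dX2 S hadd hsub hD) (S.var _) (S.var _))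

include hadd hsub hD in
theorem dX4 : S.Def fun q : Fin 2 → K => q 0 ∈ X4 (secs D) (YYs D) (q 1) := by
  apply S.ex (P := fun w (q : Fin 2 → K) => w ∈ X2 (secs D) (YYs D) (q 1) ∧
    ∃ a ∈ Z0 (secs D) (q 1), ∃ x ∈ secs D w, x + (q 1 - a) ∉ secs D (q 0))
  refine S.and (S.sub2 (R := fun x y => x ∈ X2 (secs D) (YYs D) y) (dX2 S hadd hsub hD)
    (S.var _) (S.var _)) ?_
  apply S.ex (P := fun a (q : Option (Fin 2) → K) => a ∈ Z0 (secs D) (q (some 1)) ∧
    ∃ x ∈ secs D (q none), x + (q (some 1) - a) ∉ secs D (q (some 0)))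
  refine S.and (S.sub2 (R := fun x y => x ∈ Z0 (secs D) y) (dZ0 S hD) (S.var _) (S.var _)) ?_
  apply S.ex (P := fun x (q : Option (Option (Fin 2)) → K) => x ∈ secs D (q (some none)) ∧
    x + (q (some (some 1)) - q none) ∉ secs D (q (some (some 0))))
  exact S.and (S.sub2 hD (S.var _) (S.var _)) (S.not (S.sub2 hD (hadd _ _ _ (S.var _)
    (hsub _ _ _ (S.var _) (S.var _))) (S.var _)))

include hadd hsub hD in
theorem dX5 : S.Def fun q : Fin 2 → K => q 0 ∈ X5 (secs D) (YYs D) (q 1) := by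
  apply S.ex (P := fun u (q : Fin 2 → K) => u ∈ X2 (secs D) (YYs D) (q 1) ∧ q 0 ∈ secs D u)
  exact S.and (S.sub2 (R := fun x y => x ∈ X2 (secs D) (YYs D) y) (dX2 S hadd hsub hD)
    (S.var _) (S.var _)) (S.sub2 hD (S.var _) (S.var _))

include hadd hsub hD in
theorem dX6 : S.Def fun q : Fin 2 → K => q 0 ∈ X6 (secs D) (YYs D) (q 1) := by
  apply S.ex (P := fun u (q : Fin 2 → K) => u ∈ X2 (secs D) (YYs D) (q 1) ∧
    ∃ b' ∈ X5 (secs D) (YYs D) (q 1), ∃ x ∈ secs D u, x + (q 1 - b') ∉ secs D (q 0))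
  refine S.and (S.sub2 (R := fun x y => x ∈ X2 (secs D) (YYs D) y) (dX2 S hadd hsub hD)
    (S.var _) (S.var _)) ?_
  apply S.ex (P := fun b' (q : Option (Fin 2) → K) => b' ∈ X5 (secs D) (YYs D) (q (some 1)) ∧
    ∃ x ∈ secs D (q none), x + (q (some 1) - b') ∉ secs D (q (some 0)))
  refine S.and (S.sub2 (R := fun x y => x ∈ X5 (secs D) (YYs D) y) (dX5 S hadd hsub hD)
    (S.var _) (S.var _)) ?_
  apply S.ex (P := fun x (q : Option (Option (Fin 2)) → K) => x ∈ secs D (q (some none)) ∧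
    x + (q (some (some 1)) - q none) ∉ secs D (q (some (some 0))))
  exact S.and (S.sub2 hD (S.var _) (S.var _)) (S.not (S.sub2 hD (hadd _ _ _ (S.var _)
    (hsub _ _ _ (S.var _) (S.var _))) (S.var _)))

include hadd hsub hD in
theorem dX7 : S.Def fun q : Fin 2 → K => q 0 ∈ X7 (secs D) (YYs D) (q 1) := by
  apply S.ex (P := fun b' (q : Fin 2 → K) => b' ∈ X5 (secs D) (YYs D) (q 1) ∧
    q 0 - b' ∈ X1 (secs D) (q 1 - b'))
  exact S.and (S.sub2 (R := fun x y => x ∈ X5 (secs D) (YYs D) y) (dX5 S hadd hsub hD)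
    (S.var _) (S.var _)) (S.sub2 (R := fun x y => x ∈ X1 (secs D) y) (dX1 S hD)
      (hsub _ _ _ (S.var _) (S.var _)) (hsub _ _ _ (S.var _) (S.var _)))

include hadd hsub hD in
theorem dX8 : S.Def fun q : Fin 2 → K => q 0 ∈ X8 (secs D) (YYs D) (q 1) := by
  apply S.ex (P := fun c (q : Fin 2 → K) => c ∈ X7 (secs D) (YYs D) (q 1) ∧
    q 0 ∈ X2 (secs D) (YYs D) c)
  exact S.and (S.sub2 (R := fun x y => x ∈ X7 (secs D) (YYs D) y) (dX7 S hadd hsub hD)
    (S.var _) (S.var _)) (S.sub2 (R := fun x y => x ∈ X2 (secs D) (YYs D) y)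
      (dX2 S hadd hsub hD) (S.var _) (S.var _))

include hadd hsub hD in
theorem dXX : S.Def fun q : Fin 2 → K => q 0 ∈ XX (secs D) (YYs D) (q 1) :=
  S.or (S.sub2 hD (S.var 0) (S.var 1)) (S.or (S.not (S.sub2 hD (S.var 1) (S.var 0)))
    (S.or (dX2 S hadd hsub hD) (S.or (dX3 S hadd hsub hD) (S.or (dX4 S hadd hsub hD)
      (S.or (dX6 S hadd hsub hD) (dX8 S hadd hsub hD))))))

include hadd hsub hD in
theorem dGam : S.Def fun q : Unit → K => q () ∈ Gam (secs D) (YYs D) := by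
  apply S.ex (P := fun w (q : Unit → K) => w ∈ X2 (secs D) (YYs D) 0 ∧ w ∉ secs D (q ()))
  exact S.and (S.sub2 (R := fun x y => x ∈ X2 (secs D) (YYs D) y) (dX2 S hadd hsub hD)
    (S.var _) (S.const 0)) (S.not (S.sub2 hD (S.var _) (S.var _)))

include hadd hsub hD in
/-- The coding family is definable: parameters `y, t` of the member `G = D_y - t`, then `c` and
`v`. -/
theorem dFF : S.Def fun q : Option (Fin 4) → K =>
    q none ∈ FF (secs D) (YYs D) {x | D (q (some 1) + x) (q (some 0))} (q (some 2))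
      (q (some 3)) := by
  have h1 : S.Def fun q : Option (Fin 4) → K =>
      q none ∈ SS (secs D) (YYs D) {x | D (q (some 1) + x) (q (some 0))} (q (some 2)) := by
    apply S.ex (P := fun w (q : Option (Fin 4) → K) => w ∉ XX (secs D) (YYs D) (q none) ∧
      ∀ x ∈ secs D w, (x + (q (some 2) - q none) ∈ {x | D (q (some 1) + x) (q (some 0))} ↔
        x ∈ {x | D (q (some 1) + x) (q (some 0))}))
    refine S.and (S.not (S.sub2 (R := fun x y => x ∈ XX (secs D) (YYs D) y)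
      (dXX S hadd hsub hD) (S.var _) (S.var _))) ?_
    apply S.all (P := fun x (q : Option (Option (Fin 4)) → K) => x ∈ secs D (q none) →
      (x + (q (some (some 2)) - q (some none)) ∈
        {x | D (q (some (some 1)) + x) (q (some (some 0)))} ↔
        x ∈ {x | D (q (some (some 1)) + x) (q (some (some 0)))}))
    exact S.imp (S.sub2 hD (S.var _) (S.var _)) (S.iff
      (S.sub2 hD (hadd _ _ _ (S.var _) (hadd _ _ _ (S.var _) (hsub _ _ _ (S.var _) (S.var _))))
        (S.var _)) (S.sub2 hD (hadd _ _ _ (S.var _) (S.var _)) (S.var _)))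
  refine S.and h1 (S.and (S.sub2 hD (S.var _) (S.var _)) (S.and (S.not ?_)
    (S.not (S.eq (S.var _) (S.const 0)))))
  exact S.subst (P := fun q : Unit → K => q () ∈ Gam (secs D) (YYs D))
    (F := fun (q : Option (Fin 4) → K) _ => q none) (dGam S hadd hsub hD) fun _ => S.var _

end FamDef

end Pool.Agent.Lib.MP_097535_lc.FULL
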