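import Pool.Agent.Lib.MP_097535_lc.FULL.Inst
import Pool.Agent.Lib.MP_097535_lc.FULL.FamDef
import Pool.Agent.Lib.MP_097535_lc.FULL.Cod
import Pool.Agent.Lib.MP_097535_lc.NIP.Inst
import Pool.Agent.Lib.MP_097535_lc.NIP.Rad

/-!
# Minimal fields of characteristic zero are algebraically closed
-/

set_option autoImplicit false

namespace Pool.Agent.Lib.MP_097535_lc.FULL

open Set Filter Pool.Agent.Lib.MP_097535_lc.NIP

/-- There is no definable family of finite sets covering every element for all but finitely many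
parameters. -/
theorem Fam.false {K : Type*} [Field K] [CharZero K] (F : Fam K)
    (hsub : ∀ (ι : Type) (f g : (ι → K) → K), F.S.Tm f → F.S.Tm g → F.S.Tm fun p => f p - g p) :
    False := by
  obtain ⟨B, C, hB, hC, hBC, hd⟩ := F.exists_pair
  refine cod F.S (fun _ _ _ => F.add) F.dD F.fin F.cof hB hC hBC hd (r := 4)
    (F := fun p b => b ∈ FF (secs F.D) (YYs F.D) {x | F.D (p 1 + x) (p 0)} (p 2) (p 3))
    (dFF F.S (fun _ _ _ => F.add) hsub F.dD) ?_
  intro m P hP
  obtain ⟨G, ⟨y, t, rfl⟩, c, v, u, hu, hFF⟩ := exists_coded_L F.sys m P hP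
  refine ⟨![y, t, c, v], u, hu, fun x => ?_⟩
  have h1 := Set.ext_iff.1 hFF x
  refine Iff.trans h1 ?_
  rw [Set.mem_range]
  exact exists_congr fun i => eq_comm

/-- The elements `1 / (i + 2)` are different modulo the integers. -/
theorem exists_idx (K : Type*) [Field K] [CharZero K] (n : ℕ) :
    ∃ r : Fin n → K, ∀ i j, i ≠ j → ∀ m : ℤ, r i - r j ≠ (m : K) := by
  refine ⟨fun i => ((1 / ((i : ℕ) + 2 : ℚ) : ℚ) : K), fun i j hij m h => ?_⟩
  have h1 : (1 / ((i : ℕ) + 2 : ℚ) : ℚ) - 1 / ((j : ℕ) + 2 : ℚ) = (m : ℚ) := by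
    apply Rat.cast_injective (α := K)
    rw [Rat.cast_sub, Rat.cast_intCast]
    exact h
  have hi : (0 : ℚ) < 1 / ((i : ℕ) + 2 : ℚ) := by positivity
  have hj : (0 : ℚ) < 1 / ((j : ℕ) + 2 : ℚ) := by positivity
  have hi' : 1 / ((i : ℕ) + 2 : ℚ) ≤ 1 / 2 := by
    apply one_div_le_one_div_of_le (by norm_num)
    have : (0 : ℚ) ≤ (i : ℕ) := Nat.cast_nonneg _
    linarith
  have hj' : 1 / ((j : ℕ) + 2 : ℚ) ≤ 1 / 2 := by
    apply one_div_le_one_div_of_le (by norm_num)
    have : (0 : ℚ) ≤ (j : ℕ) := Nat.cast_nonneg _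
    linarith
  have hm1 : (m : ℚ) < 1 := by rw [← h1]; linarith
  have hm2 : (-1 : ℚ) < (m : ℚ) := by rw [← h1]; linarith
  have hm : m = 0 := by
    have h3 : m < 1 := by exact_mod_cast hm1
    have h4 : -1 < m := by exact_mod_cast hm2
    omega
  rw [hm, Int.cast_zero, sub_eq_zero] at h1
  have h2 : ((i : ℕ) : ℚ) = ((j : ℕ) : ℚ) := by
    rw [one_div, one_div] at h1
    have h5 := inv_injective h1
    linarith
  exact hij (Fin.ext (by exact_mod_cast h2))

/-- **Podewski's conjecture in characteristic zero.** Every minimal field of characteristic zero is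
algebraically closed. -/
theorem isAlgClosed_of_isMinimalField.{u} {K : Type u} [Field K] [CharZero K]
    (hK : IsMinimalField K) : IsAlgClosed K := by
  by_contra hna
  set S := sys hK with hSdef
  have hR : S.IsRing := ⟨fun hf hg => sys_add hK _ _ _ hf hg, fun hf hg => sys_mul hK _ _ _ hf hg⟩
  have hns : ¬ S.Sym := fun h => hna (DefSys.isAlgClosed_of_sym S hR h)
  unfold DefSys.Sym at hns
  simp only [not_forall] at hns
  obtain ⟨R, hRd, h1, h2⟩ := hns
  obtain ⟨D, hD, hfin, hcof⟩ := DefSys.exists_finite_sections hRd h1 h2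
  exact Fam.false
    { S := S
      D := D
      add := fun hf hg => sys_add hK _ _ _ hf hg
      dD := hD
      fin := hfin
      cof := hcof
      tf := fun h hh n hn => by
        rw [nsmul_eq_mul]
        exact mul_ne_zero (Nat.cast_ne_zero.2 hn) hh
      idx := exists_idx K } fun _ _ _ hf hg => sys_sub hK _ _ _ hf hg

end Pool.Agent.Lib.MP_097535_lc.FULL
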