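import Pool.Agent.Lib.MP_097535_lc.FULL.EI

/-!
# Recurrent members of the closure of a definable family of finite sets

The closed invariant set `TT D` of the generically present sets, its derivatives (the members
whose finite patterns recur at all but finitely many distances), and the induction lemma.
-/

set_option autoImplicit false

namespace Pool.Agent.Lib.MP_097535_lc.FULL

open Set Filter Pool.Agent.Lib.MP_097535_lc.NIP

section Compact

variable {K : Type*}

/-- Nets of Boolean functions have cluster points. -/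
theorem exists_limit {ι : Type*} [Preorder ι] [IsDirectedOrder ι] [Nonempty ι]
    (c : ι → K → Bool) :
    ∃ C : K → Bool, ∀ A : Finset K, ∀ i : ι, ∃ j, i ≤ j ∧ ∀ a ∈ A, c j a = C a := by
  obtain ⟨C, hC⟩ := exists_clusterPt_of_compactSpace (Filter.map c atTop)
  refine ⟨C, fun A i => ?_⟩
  have hopen : IsOpen {B : K → Bool | ∀ a ∈ A, B a = C a} := by
    have : {B : K → Bool | ∀ a ∈ A, B a = C a} = ⋂ a ∈ A, (fun B => B a) ⁻¹' {C a} := by
      ext B; simp
    rw [this]
    exact isOpen_biInter_finset fun a _ => (isOpen_discrete _).preimage (continuous_apply a)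
  have hmem : {B : K → Bool | ∀ a ∈ A, B a = C a} ∈ nhds C := hopen.mem_nhds fun a _ => rfl
  have h1 : MapClusterPt C atTop c := hC
  have h2 := h1.frequently hmem
  obtain ⟨j, hj1, hj2⟩ := (h2.and_eventually (eventually_ge_atTop i)).exists
  exact ⟨j, hj2, hj1⟩

/-- The set `V` depends on the coordinates in `A` only. -/
def Dep (A : Finset K) (V : Set (K → Bool)) : Prop :=
  ∀ B B' : K → Bool, (∀ a ∈ A, B a = B' a) → B ∈ V → B' ∈ V

theorem Dep.compl {A : Finset K} {V : Set (K → Bool)} (h : Dep A V) : Dep A Vᶜ := by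
  intro B B' hBB' hB hB'
  exact hB (h B' B (fun a ha => (hBB' a ha).symm) hB')

theorem Dep.mono {A A' : Finset K} {V : Set (K → Bool)} (h : Dep A V) (hA : A ⊆ A') : Dep A' V :=
  fun B B' hBB' hB => h B B' (fun a ha => hBB' a (hA ha)) hB

theorem Dep.iff {A : Finset K} {V : Set (K → Bool)} (h : Dep A V) {B B' : K → Bool}
    (hBB' : ∀ a ∈ A, B a = B' a) : B ∈ V ↔ B' ∈ V :=
  ⟨h B B' hBB', h B' B fun a ha => (hBB' a ha).symm⟩

theorem Dep.inter {A A' : Finset K} [DecidableEq K] {V V' : Set (K → Bool)} (h : Dep A V)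
    (h' : Dep A' V') : Dep (A ∪ A') (V ∩ V') := fun B B' hBB' hB =>
  ⟨h B B' (fun a ha => hBB' a (Finset.mem_union_left _ ha)) hB.1,
    h' B B' (fun a ha => hBB' a (Finset.mem_union_right _ ha)) hB.2⟩

theorem Dep.isClopen {A : Finset K} {V : Set (K → Bool)} (h : Dep A V) : IsClopen V := by
  let r : (K → Bool) → (A → Bool) := fun B a => B a
  have hr : Continuous r := continuous_pi fun a => continuous_apply (a : K)
  have hU : V = r ⁻¹' (r '' V) := by
    refine subset_antisymm (subset_preimage_image r V) ?_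
    rintro B ⟨B', hB', hBB'⟩
    exact h B' B (fun a ha => congrFun hBB' ⟨a, ha⟩) hB'
  rw [hU]
  exact (isClopen_discrete _).preimage hr

theorem exists_dep {V : Set (K → Bool)} (hV : IsClopen V) : ∃ A, Dep A V := by
  classical
  have h1 : ∀ B ∈ V, ∃ I : Finset K, {B' : K → Bool | ∀ a ∈ I, B' a = B a} ⊆ V := by
    intro B hB
    obtain ⟨I, u, hu, hsub⟩ := isOpen_pi_iff.1 hV.isOpen B hB
    refine ⟨I, fun B' hB' => hsub fun a ha => ?_⟩
    rw [hB' a ha]
    exact (hu a ha).2
  choose! I hI using h1
  obtain ⟨t, ht, htV⟩ := hV.isClosed.isCompact.elim_nhds_subcover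
    (fun B => {B' : K → Bool | ∀ a ∈ I B, B' a = B a}) (fun B _ => by
      have hopen : IsOpen {B' : K → Bool | ∀ a ∈ I B, B' a = B a} := by
        have : {B' : K → Bool | ∀ a ∈ I B, B' a = B a} =
            ⋂ a ∈ I B, (fun B' => B' a) ⁻¹' {B a} := by
          ext B'; simp
        rw [this]
        exact isOpen_biInter_finset fun a _ => (isOpen_discrete _).preimage (continuous_apply a)
      exact hopen.mem_nhds fun a _ => rfl)
  refine ⟨t.biUnion I, fun B B' hBB' hB => ?_⟩
  obtain ⟨B0, hB0, hBB0⟩ := mem_iUnion₂.1 (htV hB)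
  refine hI B0 (ht B0 hB0) fun a ha => ?_
  rw [← hBB' a (Finset.mem_biUnion.2 ⟨B0, hB0, ha⟩)]
  exact hBB0 a ha

end Compact

section Basic

variable {K : Type*} [AddCommGroupWithOne K]

theorem Cl_tr {D : K → K → Prop} {B : K → Bool} (hB : B ∈ Cl D) (h : K) : tr h B ∈ Cl D := by
  classical
  intro A
  obtain ⟨y, t, hyt⟩ := hB (A.image fun a => a + h)
  refine ⟨y, t + h, fun a ha => ?_⟩
  have := hyt (a + h) (Finset.mem_image_of_mem _ ha)
  have h2 : t + h + a = t + (a + h) := by abel
  rw [h2]
  exact this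

theorem Cl_closed {D : K → K → Prop} {B : K → Bool}
    (h : ∀ A : Finset K, ∃ C ∈ Cl D, ∀ a ∈ A, C a = B a) : B ∈ Cl D := by
  intro A
  obtain ⟨C, hC, hCB⟩ := h A
  obtain ⟨y, t, hyt⟩ := hC A
  exact ⟨y, t, fun a ha => by rw [hyt a ha, hCB a ha]⟩

theorem TT_sub_Cl [Infinite K] {D : K → K → Prop} : TT D ⊆ Cl D := by
  intro B hB A
  obtain ⟨t, ht⟩ := (hB A).infinite_compl.nonempty
  rw [compl_compl] at ht
  obtain ⟨y, hy⟩ := ht
  exact ⟨y, t, hy⟩

theorem tr_sh (D : K → K → Prop) (y t u b : K) :
    tr u (sh D y t) b = true ↔ D (t + (b + u)) y := by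
  simp [tr, sh]

/-- Definability of the membership in a set depending on finitely many coordinates. -/
theorem def_dep (S : DefSys K) {ι : Type} {A : Finset K} {V : Set (K → Bool)} (hV : Dep A V)
    (F : (ι → K) → K → Bool) (hF : ∀ a ∈ A, S.Def fun q => F q a = true) :
    S.Def fun q => F q ∈ V := by
  classical
  have hne : Nonempty K := ⟨0⟩
  have h1 : S.Def fun q => ∀ P ∈ A.powerset.filter (fun P => (fun b => decide (b ∈ P)) ∉ V),
      ¬ ∀ a : A, (F q a = true ↔ (a : K) ∈ P) := by
    refine S.finset_all _ fun P => S.not ?_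
    exact S.fintype_all fun a => S.iff (hF a a.2) (S.prop _)
  refine S.congr h1 fun q => ⟨fun h => ?_, fun h P hP hq => ?_⟩
  · by_contra hcon
    set P : Finset K := A.filter fun a => F q a = true with hPdef
    have hagree : ∀ a ∈ A, (decide (a ∈ P)) = F q a := by
      intro a ha
      simp [hPdef, ha]
    refine h P ?_ ?_
    · rw [Finset.mem_filter, Finset.mem_powerset]
      refine ⟨Finset.filter_subset _ _, fun hV' => hcon ?_⟩
      exact hV _ _ hagree hV'
    · intro a
      rw [← hagree a a.2]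
      simp
  · rw [Finset.mem_filter] at hP
    refine hP.2 (hV _ _ (fun a ha => ?_) h)
    have := hq ⟨a, ha⟩
    simp only at this
    by_cases h3 : a ∈ P
    · simp only [h3, decide_true]
      exact this.2 h3
    · simp only [h3, decide_false]
      rw [← Bool.not_eq_true]
      exact fun h4 => h3 (this.1 h4)

end Basic

/-- The standing assumptions: a definable family of finite sets on a torsion free group with a
distinguished element of infinite index, covering every element for all but finitely many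
parameters. -/
structure Fam (K : Type*) [AddCommGroupWithOne K] where
  S : DefSys K
  D : K → K → Prop
  add : ∀ {ι : Type} {f g : (ι → K) → K}, S.Tm f → S.Tm g → S.Tm fun p => f p + g p
  dD : S.Def fun q : Fin 2 → K => D (q 0) (q 1)
  fin : ∀ y, {x | D x y}.Finite
  cof : ∀ x, {y | ¬ D x y}.Finite
  tf : ∀ h : K, h ≠ 0 → ∀ n : ℕ, n ≠ 0 → n • h ≠ 0
  idx : ∀ n : ℕ, ∃ r : Fin n → K, ∀ i j, i ≠ j → ∀ m : ℤ, r i - r j ≠ (m : K)

namespace Fam

variable {K : Type*} [AddCommGroupWithOne K] (F : Fam K)

theorem infinite (F : Fam K) : Infinite K := by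
  by_contra hcon
  rw [not_infinite_iff_finite] at hcon
  obtain ⟨r, hr⟩ := F.idx (Nat.card K + 1)
  have hinj : Function.Injective r := by
    intro i j hij
    by_contra hne
    have := hr i j hne 0
    simp [hij] at this
  have := Nat.card_le_card_of_injective r hinj
  simp at this

theorem defD {ι : Type} {f g : (ι → K) → K} (hf : F.S.Tm f) (hg : F.S.Tm g) :
    F.S.Def fun q => F.D (f q) (g q) := F.S.sub2 F.dD hf hg

theorem evD (x : K) : ∀ᶠ w in cofinite, F.D x w := by
  rw [eventually_cofinite]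
  exact F.cof x

theorem evDs (A : Finset K) : ∀ᶠ w in cofinite, ∀ a ∈ A, F.D a w := by
  rw [Filter.eventually_all_finset]
  exact fun a _ => F.evD a

end Fam

end Pool.Agent.Lib.MP_097535_lc.FULL
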