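import Pool.Agent.Lib.MP_097535_lc.FULL.Defs

/-!
# Exact generic finite sets from recurrence: the combinatorial part

`D y` (`y` in `K`) are finite sets, every `x` lies in `D y` for all but finitely many `y`.
-/

set_option autoImplicit false

namespace Pool.Agent.Lib.MP_097535_lc.FULL

open Set Filter

variable {K : Type*}

theorem Z0_total (D : K → Set K) (x y : K) : x ∈ Z0 D y ∨ y ∈ Z0 D x := by
  by_cases h : x ∈ D y
  · exact Or.inl (Or.inl h)
  · exact Or.inr (Or.inr (Or.inl h))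

theorem Z0_self (D : K → Set K) (x : K) : x ∈ Z0 D x := Or.inr (Or.inr rfl)

section fin

variable {D : K → Set K} (hD : ∀ y, (D y).Finite) (hE : ∀ x, {y | x ∉ D y}.Finite)
include hD hE

theorem Z0_finite (y : K) : (Z0 D y).Finite := by
  refine (((hD y).union (hE y)).union (finite_singleton y)).subset ?_
  rintro x (h | h | h)
  · exact Or.inl (Or.inl h)
  · exact Or.inl (Or.inr h)
  · exact Or.inr h

theorem X1_finite (t : K) : (X1 D t).Finite := by
  have h : X1 D t = ⋃ a ∈ Z0 D t, ⋃ b ∈ Z0 D a, Z0 D b := by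
    ext s
    simp [X1]
  rw [h]
  exact (Z0_finite hD hE t).biUnion fun a _ => (Z0_finite hD hE a).biUnion fun b _ =>
    Z0_finite hD hE b

/-- A king: from every element of `R` one reaches `h` in three steps. -/
theorem king {R : Set K} (hR : R.Nonempty) : ∃ h ∈ R, ∀ t ∈ R, h ∈ X1 D t := by
  classical
  obtain ⟨r, hr⟩ := hR
  have hfin : (R ∩ Z0 D r).Finite := (Z0_finite hD hE r).subset inter_subset_right
  have hne : (R ∩ Z0 D r).Nonempty := ⟨r, hr, Z0_self D r⟩
  -- number of the elements with an arrow to `h`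
  let f : K → ℕ := fun h => (hfin.toFinset.filter fun a => h ∈ Z0 D a).card
  obtain ⟨h, hh, hmax⟩ := hfin.toFinset.exists_max_image f (by simpa using hne)
  have hh' : h ∈ R ∩ Z0 D r := by simpa using hh
  have key : ∀ t ∈ R ∩ Z0 D r, ∃ b ∈ Z0 D t, h ∈ Z0 D b := by
    intro t ht
    by_contra hcon
    push Not at hcon
    have h1 : h ∉ Z0 D t := hcon t (Z0_self D t)
    have hlt : f h < f t := by
      apply Finset.card_lt_card
      rw [Finset.ssubset_iff_of_subset]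
      · refine ⟨t, ?_, ?_⟩
        · simp only [Finset.mem_filter]
          exact ⟨by simpa using ht, Z0_self D t⟩
        · simp only [Finset.mem_filter]
          exact fun h2 => h1 h2.2
      · intro a ha
        simp only [Finset.mem_filter] at ha ⊢
        refine ⟨ha.1, ?_⟩
        rcases Z0_total D a t with h2 | h2
        · exact absurd ha.2 (hcon a h2)
        · exact h2
    exact absurd (hmax t (by simpa using ht)) (not_le.mpr hlt)
  refine ⟨h, hh'.1, fun t ht => ?_⟩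
  by_cases h1 : t ∈ Z0 D r
  · obtain ⟨b, hb, hb'⟩ := key t ⟨ht, h1⟩
    exact ⟨t, Z0_self D t, b, hb, hb'⟩
  · obtain ⟨b, hb, hb'⟩ := key r ⟨hr, Z0_self D r⟩
    exact ⟨r, (Z0_total D r t).resolve_right h1, b, hb, hb'⟩

end fin

variable [Field K]

section fin2

variable {D Y : K → Set K} (hD : ∀ y, (D y).Finite) (hE : ∀ x, {y | x ∉ D y}.Finite)
  (hY : ∀ h ≠ 0, (Y h).Finite)

omit [Field K] in
include hE in
theorem notSub_finite {F : Set K} (hF : F.Finite) : {w | ∃ x ∈ F, x ∉ D w}.Finite := by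
  have h : {w | ∃ x ∈ F, x ∉ D w} = ⋃ x ∈ F, {w | x ∉ D w} := by
    ext w
    simp
  rw [h]
  exact hF.biUnion fun x _ => hE x

include hY in
theorem VV_finite {h : K} (hh : h ≠ 0) : (VV Y h).Finite := by
  refine ((((hY h hh).insert 0).image fun x => x + 1)).subset ?_
  rintro v ⟨h1, _⟩
  refine ⟨v - 1, ?_, by simp⟩
  rcases h1 with h1 | h1
  · exact Or.inr h1
  · exact Or.inl h1

include hY in
theorem VV_nonempty [CharZero K] {h : K} (hh : h ≠ 0) : (VV Y h).Nonempty := by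
  by_contra hcon
  rw [not_nonempty_iff_eq_empty] at hcon
  have h1 : ∀ n : ℕ, (n : K) ∈ Y h ∨ (n : K) = 0 := by
    intro n
    induction n with
    | zero => right; simp
    | succ n ih =>
      by_contra h2
      have h3 : ((n + 1 : ℕ) : K) ∈ VV Y h := by
        refine ⟨?_, h2⟩
        simpa using ih
      rw [hcon] at h3
      exact h3
  have h2 : (Set.range fun n : ℕ => (n : K)) ⊆ insert 0 (Y h) := by
    rintro _ ⟨n, rfl⟩
    rcases h1 n with h | h
    · exact Or.inr h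
    · exact Or.inl h
  exact (Set.infinite_range_of_injective Nat.cast_injective) (((hY h hh).insert 0).subset h2)

include hD hE hY

theorem X2_finite (b : K) : (X2 D Y b).Finite := by
  have h : X2 D Y b ⊆ ⋃ b' ∈ Z0 D b \ {b}, ⋃ v ∈ VV Y (b' - b) ∪ VV Y (b - b'),
      {w | ∃ x ∈ D v ∪ (fun x => x + (b' - b)) '' D v ∪ (fun x => x + (b - b')) '' D v,
        x ∉ D w} := by
    rintro w ⟨b', hb', hne, v, hv, x, hx, hx'⟩
    simp only [mem_iUnion]
    refine ⟨b', ⟨hb', hne⟩, v, hv, ?_⟩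
    by_cases h1 : x ∈ D w
    · by_cases h2 : x + (b' - b) ∈ D w
      · exact ⟨x + (b - b'), Or.inr ⟨x, hx, rfl⟩, fun h3 => hx' ⟨h1, h2, h3⟩⟩
      · exact ⟨x + (b' - b), Or.inl (Or.inr ⟨x, hx, rfl⟩), h2⟩
    · exact ⟨x, Or.inl (Or.inl hx), h1⟩
  refine Set.Finite.subset ?_ h
  refine ((Z0_finite hD hE b).sdiff).biUnion fun b' hb' => ?_
  have hne : b' ≠ b := hb'.2
  refine ((VV_finite hY (sub_ne_zero.mpr hne)).union
    (VV_finite hY (sub_ne_zero.mpr hne.symm))).biUnion fun v _ => ?_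
  exact notSub_finite hE (((hD v).union ((hD v).image _)).union ((hD v).image _))

theorem X3_finite (b : K) : (X3 D Y b).Finite := by
  have h : X3 D Y b = ⋃ b' ∈ Z0 D b, X2 D Y b' := by
    ext w
    simp [X3]
  rw [h]
  exact (Z0_finite hD hE b).biUnion fun b' _ => X2_finite hD hE hY b'

theorem X4_finite (b : K) : (X4 D Y b).Finite := by
  have h : X4 D Y b ⊆ ⋃ w ∈ X2 D Y b, ⋃ a ∈ Z0 D b,
      {w' | ∃ x ∈ (fun x => x + (b - a)) '' D w, x ∉ D w'} := by
    rintro w' ⟨w, hw, a, ha, x, hx, hx'⟩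
    simp only [mem_iUnion]
    exact ⟨w, hw, a, ha, _, ⟨x, hx, rfl⟩, hx'⟩
  refine Set.Finite.subset ?_ h
  exact (X2_finite hD hE hY b).biUnion fun w _ => (Z0_finite hD hE b).biUnion fun a _ =>
    notSub_finite hE ((hD w).image _)

theorem X5_finite (b : K) : (X5 D Y b).Finite := by
  have h : X5 D Y b = ⋃ u ∈ X2 D Y b, D u := by
    ext w
    simp [X5]
  rw [h]
  exact (X2_finite hD hE hY b).biUnion fun u _ => hD u

theorem X6_finite (b : K) : (X6 D Y b).Finite := by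
  have h : X6 D Y b ⊆ ⋃ u ∈ X2 D Y b, ⋃ b' ∈ X5 D Y b,
      {w' | ∃ x ∈ (fun x => x + (b - b')) '' D u, x ∉ D w'} := by
    rintro w' ⟨w, hw, a, ha, x, hx, hx'⟩
    simp only [mem_iUnion]
    exact ⟨w, hw, a, ha, _, ⟨x, hx, rfl⟩, hx'⟩
  refine Set.Finite.subset ?_ h
  exact (X2_finite hD hE hY b).biUnion fun w _ => (X5_finite hD hE hY b).biUnion fun a _ =>
    notSub_finite hE ((hD w).image _)

theorem X7_finite (b : K) : (X7 D Y b).Finite := by
  have h : X7 D Y b ⊆ ⋃ b' ∈ X5 D Y b, (fun s => b' + s) '' X1 D (b - b') := by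
    rintro s ⟨b', hb', hs⟩
    simp only [mem_iUnion]
    exact ⟨b', hb', s - b', hs, by simp⟩
  refine Set.Finite.subset ?_ h
  exact (X5_finite hD hE hY b).biUnion fun b' _ => (X1_finite hD hE _).image _

theorem X8_finite (b : K) : (X8 D Y b).Finite := by
  have h : X8 D Y b = ⋃ c ∈ X7 D Y b, X2 D Y c := by
    ext w
    simp [X8]
  rw [h]
  exact (X7_finite hD hE hY b).biUnion fun c _ => X2_finite hD hE hY c

theorem XX_finite (b : K) : (XX D Y b).Finite := by
  refine ((hD b).union ((hE b).union ((X2_finite hD hE hY b).union ((X3_finite hD hE hY b).union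
    ((X4_finite hD hE hY b).union ((X6_finite hD hE hY b).union
      (X8_finite hD hE hY b))))))).subset ?_
  intro w hw
  exact hw

theorem Gam_finite : (Gam D Y).Finite := by
  have h : Gam D Y = ⋃ w ∈ X2 D Y 0, {y | w ∉ D y} := by
    ext w
    simp [Gam]
  rw [h]
  exact (X2_finite hD hE hY 0).biUnion fun c _ => hE c

end fin2

/-- The data of the construction at the end. -/
structure Run (D Y : K → Set K) (G : Set K) (m : ℕ) (b w : ℕ → K) (v : K) : Prop where
  b0 : b 0 = 0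
  g0 : (0 : K) ∈ G
  g1 : (1 : K) ∉ G
  yy : ∀ h v', h ≠ 0 → (∀ x ∈ D v', (x + h ∈ G ↔ x ∈ G)) → v' ∈ Y h
  xx : ∀ i ≤ m, w i ∉ XX D Y (b i)
  nest : ∀ i < m, ∀ x ∈ D (w i), x ∈ D (w (i + 1))
  shift : ∀ i < m, ∀ x ∈ D (w i), x + (b (i + 1) - b i) ∈ D (w (i + 1))
  add : ∀ i < m, ∀ a ∈ Z0 D (b (i + 1)), ∀ x ∈ D (w i), x + (a - b i) ∈ D (w (i + 1))
  rec' : ∀ i < m, ∀ x ∈ D (w i), (x + (b (i + 1) - b i) ∈ G ↔ x ∈ G)
  king : ∀ i < m, ∀ t, t ≠ 0 → (∀ x ∈ D (w i), x + t ∈ D (w (i + 1))) →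
    (∀ x ∈ D (w i), (x + t ∈ G ↔ x ∈ G)) → b (i + 1) - b i ∈ X1 D t
  last : ∀ x ∈ D v, w m ∉ X2 D Y x

section run

variable {D Y : K → Set K} {G : Set K} {m : ℕ} {b w : ℕ → K} {v : K}

theorem Run.agree (R : Run D Y G m b w v) {i : ℕ} (hi : i ≤ m) :
    ∀ x ∈ D (w i), (x + (b m - b i) ∈ G ↔ x ∈ G) := by
  induction hi using Nat.decreasingInduction with
  | self => intro x _; simp
  | of_succ i hi ih =>
    intro x hx
    have h1 := ih _ (R.shift i hi x hx)
    have h2 : x + (b m - b i) = x + (b (i + 1) - b i) + (b m - b (i + 1)) := by ring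
    rw [h2, h1]
    exact R.rec' i hi x hx

theorem Run.mem (R : Run D Y G m b w v) {i : ℕ} (hi : i ≤ m) : b i ∈ SS D Y G (b m) :=
  ⟨w i, R.xx i hi, R.agree hi⟩

/-- There are no other elements. -/
theorem Run.only [CharZero K] (hY : ∀ h ≠ 0, (Y h).Finite) (R : Run D Y G m b w v) {β : K}
    (hβ : β ∈ SS D Y G (b m)) (hβv : β ∈ D v) (hβ0 : β ∉ Gam D Y) : ∃ i ≤ m, β = b i := by
  classical
  obtain ⟨ω, hω, hωG⟩ := hβ
  have hex : ∃ j, j ≤ m ∧ w j ∉ X2 D Y β := ⟨m, le_rfl, R.last β hβv⟩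
  obtain ⟨hjm, hj⟩ := Nat.find_spec hex
  have hmin : ∀ i < Nat.find hex, w i ∈ X2 D Y β := by
    intro i hi
    by_contra h
    exact Nat.find_min hex hi ⟨by omega, h⟩
  generalize Nat.find hex = j at hjm hj hmin
  have hω' : ω ∉ D β ∧ β ∈ D ω ∧ ω ∉ X2 D Y β ∧ ω ∉ X3 D Y β ∧ ω ∉ X4 D Y β ∧ ω ∉ X6 D Y β ∧
      ω ∉ X8 D Y β := by
    unfold XX at hω
    simp only [mem_ofPred_eq, not_or, not_not] at hω
    exact hω
  have hwj : w j ∉ D (b j) ∧ b j ∈ D (w j) ∧ w j ∉ X2 D Y (b j) ∧ w j ∉ X3 D Y (b j) ∧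
      w j ∉ X4 D Y (b j) ∧ w j ∉ X6 D Y (b j) ∧ w j ∉ X8 D Y (b j) := by
    have := R.xx j hjm
    unfold XX at this
    simp only [mem_ofPred_eq, not_or, not_not] at this
    exact this
  obtain ⟨o1, o2, o3, o4, o5, o6, o8⟩ := hω'
  obtain ⟨j1, j2, j3, j4, j5, j6, j8⟩ := hwj
  have hGj := R.agree hjm
  by_cases hA : ω ∈ X2 D Y (b j)
  · -- case B
    have hjpos : j ≠ 0 := by
      rintro rfl
      rw [R.b0] at hA
      exact hβ0 ⟨ω, hA, o1⟩
    obtain ⟨i, rfl⟩ : ∃ i, j = i + 1 := ⟨j - 1, by omega⟩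
    have him : i < m := by omega
    have hnot : b (i + 1) ∉ Z0 D β := fun h => o4 ⟨_, h, hA⟩
    have hβZ : β ∈ Z0 D (b (i + 1)) := (Z0_total D β (b (i + 1))).resolve_right hnot
    have h4 : ∀ x ∈ D ω, x + (b (i + 1) - β) ∈ D (w (i + 1)) := by
      intro x hx
      by_contra h
      exact j5 ⟨ω, hA, β, hβZ, x, hx, h⟩
    have h5 : ∀ x ∈ D ω, (x + (b (i + 1) - β) ∈ G ↔ x ∈ G) := by
      intro x hx
      rw [← hωG x hx, ← hGj _ (h4 x hx)]
      have : x + (b (i + 1) - β) + (b m - b (i + 1)) = x + (b m - β) := by ring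
      rw [this]
    have hi2 : w i ∈ X2 D Y β := hmin i (by omega)
    have hbi : b i ∈ X5 D Y β := by
      refine ⟨w i, hi2, ?_⟩
      have := R.xx i him.le
      unfold XX at this
      simp only [mem_ofPred_eq, not_or, not_not] at this
      exact this.2.1
    have h6 : ∀ x ∈ D (w i), x + (β - b i) ∈ D ω := by
      intro x hx
      by_contra h
      exact o6 ⟨w i, hi2, b i, hbi, x, hx, h⟩
    have h7 : ∀ x ∈ D (w i), (x + (β - b i) ∈ G ↔ x ∈ G) := by
      intro x hx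
      rw [← h5 _ (h6 x hx), ← R.rec' i him x hx]
      have : x + (β - b i) + (b (i + 1) - β) = x + (b (i + 1) - b i) := by ring
      rw [this]
    by_cases h0 : β = b i
    · exact ⟨i, him.le, h0⟩
    · exfalso
      have h8 := R.king i him (β - b i) (sub_ne_zero.mpr h0) (R.add i him β hβZ) h7
      exact o8 ⟨b (i + 1), ⟨b i, hbi, h8⟩, hA⟩
  · -- case A
    refine ⟨j, hjm, ?_⟩
    by_contra hne
    have hh : b j - β ≠ 0 := sub_ne_zero.mpr (Ne.symm hne)
    obtain ⟨u, hu⟩ := VV_nonempty hY hh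
    have key : ∀ x ∈ D u, x ∈ D ω ∧ x + (b j - β) ∈ D (w j) := by
      intro x hx
      rcases Z0_total D β (b j) with hz | hz
      · refine ⟨?_, ?_⟩
        · by_contra h
          exact hA ⟨β, hz, hne, u, Or.inr hu, x, hx, fun h' => h h'.1⟩
        · by_contra h
          exact j3 ⟨β, hz, hne, u, Or.inr hu, x, hx, fun h' => h h'.2.2⟩
      · refine ⟨?_, ?_⟩
        · by_contra h
          exact o3 ⟨b j, hz, Ne.symm hne, u, Or.inl hu, x, hx, fun h' => h h'.1⟩
        · by_contra h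
          exact hj ⟨b j, hz, Ne.symm hne, u, Or.inl hu, x, hx, fun h' => h h'.2.1⟩
    have hYu : u ∈ Y (b j - β) := by
      refine R.yy _ u hh fun x hx => ?_
      obtain ⟨k1, k2⟩ := key x hx
      rw [← hωG x k1, ← hGj _ k2]
      have : x + (b j - β) + (b m - b j) = x + (b m - β) := by ring
      rw [this]
    exact hu.2 (Or.inl hYu)

end run

end Pool.Agent.Lib.MP_097535_lc.FULL
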