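import Pool.Agent.Lib.MP_097535_lc.FULL.Der

/-!
# The derivative of a connected closed family

The patterns of a closed translation invariant family `X` of subsets which recur inside `X` at all
but finitely many distances define the derivative of `X`; it is again not separated.
-/

set_option autoImplicit false

namespace Pool.Agent.Lib.MP_097535_lc.FULL

open Set Filter Pool.Agent.Lib.MP_097535_lc.NIP

variable {K : Type*} [AddCommGroupWithOne K]

/-- The distances at which the pattern of `C` on `A` does not recur in a member of `X`. -/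
def Bad (X : Set (K → Bool)) (A : Finset K) (C : K → Bool) : Set K :=
  {t | ¬ ∃ B ∈ X, ∀ a ∈ A, B a = C a ∧ B (a + t) = C a}

/-- Closed translation invariant connected families. -/
structure CFam (D : K → K → Prop) (X : Set (K → Bool)) : Prop where
  closed : IsClosed X
  inv : ∀ x : K, ∀ B ∈ X, tr x B ∈ X
  zero : (fun _ => false) ∈ X
  one : (fun _ => true) ∈ X
  conn : ∀ U, ¬ Sep X U
  cl : X ⊆ Cl D

theorem CFam.adm {D : K → K → Prop} {X : Set (K → Bool)} (h : CFam D X) : Adm X X :=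
  ⟨h.closed, fun _ B hB => h.inv _ B hB, h.zero, h.one, h.conn, subset_rfl⟩

theorem bad_congr (X : Set (K → Bool)) (A : Finset K) {C C' : K → Bool}
    (h : ∀ a ∈ A, C a = C' a) : Bad X A C = Bad X A C' := by
  ext t
  simp only [Bad, mem_ofPred_eq, not_iff_not]
  refine exists_congr fun B => and_congr_right fun _ => forall_congr' fun a => ?_
  exact imp_congr_right fun ha => by rw [h a ha]

theorem bad_mono (X : Set (K → Bool)) {A A' : Finset K} (h : A ⊆ A') (C : K → Bool) :
    Bad X A C ⊆ Bad X A' C := by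
  intro t ht hcon
  obtain ⟨B, hB, hB'⟩ := hcon
  exact ht ⟨B, hB, fun a ha => hB' a (h ha)⟩

theorem der_closed {X : Set (K → Bool)} (hX : IsClosed X) : IsClosed (der X) := by
  have h : der X = X ∩ ⋂ A : Finset K, {C | (Bad X A C).Finite} := by
    ext C
    simp [der, Bad]
  rw [h]
  refine hX.inter (isClosed_iInter fun A => ?_)
  refine (isClopen_of_dep A _ ?_).isClosed
  intro B B' hBB' hB
  simp only [mem_ofPred_eq] at hB ⊢
  rwa [← bad_congr X A hBB']

theorem der_inv {X : Set (K → Bool)} (hX : ∀ x : K, ∀ B ∈ X, tr x B ∈ X) :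
    ∀ x : K, ∀ B ∈ der X, tr x B ∈ der X := by
  classical
  rintro x C ⟨hC, hC'⟩
  refine ⟨hX x C hC, fun A => (hC' (A.image (· + x))).subset ?_⟩
  intro t ht hcon
  obtain ⟨B, hB, hB'⟩ := hcon
  apply ht
  refine ⟨tr x B, hX x B hB, fun a ha => ?_⟩
  have h := hB' (a + x) (Finset.mem_image_of_mem _ ha)
  refine ⟨h.1, ?_⟩
  have h2 : a + t + x = a + x + t := by abel
  simp only [tr, h2]
  exact h.2

theorem der_const {X : Set (K → Bool)} (c : Bool) (hc : (fun _ => c) ∈ X) :
    (fun _ => c) ∈ der X := by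
  refine ⟨hc, fun A => ?_⟩
  have h : Bad X A (fun _ => c) = ∅ := by
    rw [eq_empty_iff_forall_notMem]
    intro t ht
    exact ht ⟨_, hc, fun a _ => ⟨rfl, rfl⟩⟩
  change (Bad X A fun _ => c).Finite
  rw [h]
  exact finite_empty

/-- The places of non recurring patterns are boundedly many. -/
theorem exists_bound {X : Set (K → Bool)} (hcl : IsClosed X)
    (hinv : ∀ x : K, ∀ B ∈ X, tr x B ∈ X)
    (hdich : ∀ (A : Finset K) (C : K → Bool), (Bad X A C).Finite ∨ (Bad X A C)ᶜ.Finite)
    {V : Set (K → Bool)} (hV : IsClopen V) (hdis : ∀ B ∈ der X, B ∉ V) :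
    ∃ M : ℕ, ∀ B ∈ X, ∃ G : Finset K, G.card ≤ M ∧ ∀ x, tr x B ∈ V → x ∈ G := by
  classical
  -- one finite set of places
  obtain ⟨A, hA⟩ : ∃ A : Finset K, ∀ B ∈ X, B ∈ V → ¬ (Bad X A B).Finite := by
    have hE : (V ∩ X) ∩ ⋂ A : Finset K, {B | (Bad X A B).Finite} = ∅ := by
      rw [eq_empty_iff_forall_notMem]
      rintro B ⟨⟨hB1, hB2⟩, hB3⟩
      exact hdis B ⟨hB2, mem_iInter.1 hB3⟩ hB1
    obtain ⟨A, hA⟩ := (hV.isClosed.inter hcl).isCompact.elim_directed_family_closed
      (fun A : Finset K => {B | (Bad X A B).Finite})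
      (fun A => (isClopen_of_dep A _ fun B B' h hB => by
        simp only [mem_ofPred_eq] at hB ⊢
        rwa [← bad_congr X A h]).isClosed) hE
      (by
        intro A1 A2
        refine ⟨A1 ∪ A2, ?_, ?_⟩
        · intro B hB
          exact Set.Finite.subset hB (bad_mono X Finset.subset_union_left B)
        · intro B hB
          exact Set.Finite.subset hB (bad_mono X Finset.subset_union_right B))
    refine ⟨A, fun B hB hBV hfin => ?_⟩
    exact (eq_empty_iff_forall_notMem.1 hA B) ⟨⟨hBV, hB⟩, hfin⟩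
  -- the differences
  let ind : Finset K → K → Bool := fun P a => decide (a ∈ P)
  have hF : (⋃ P ∈ {P : Finset K | P ∈ A.powerset ∧ (Bad X A (ind P))ᶜ.Finite},
      (Bad X A (ind P))ᶜ).Finite := by
    refine Set.Finite.biUnion ?_ fun P hP => hP.2
    exact A.powerset.finite_toSet.subset fun P hP => hP.1
  let F : Finset K := hF.toFinset
  refine ⟨A.powerset.card * F.card, fun B hB => ?_⟩
  let pt : K → Finset K := fun x => A.filter fun a => B (a + x) = true
  have hkey : ∀ x x', tr x B ∈ V → pt x' = pt x → x' - x ∈ F := by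
    intro x x' hx hpt
    have h1 : ∀ a ∈ A, ind (pt x) a = tr x B a := by
      intro a ha
      simp only [ind, pt, tr, Finset.mem_filter, ha, true_and]
      simp
    have h2 : Bad X A (ind (pt x)) = Bad X A (tr x B) := bad_congr X A h1
    have h3 : (Bad X A (ind (pt x)))ᶜ.Finite := by
      rw [h2]
      exact (hdich A _).resolve_left (hA _ (hinv x B hB) hx)
    rw [Set.Finite.mem_toFinset]
    refine mem_biUnion (x := pt x) ⟨Finset.mem_powerset.2 (Finset.filter_subset _ _), h3⟩ ?_
    rw [mem_compl_iff, h2]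
    intro hcon
    apply hcon
    refine ⟨tr x B, hinv x B hB, fun a ha => ⟨rfl, ?_⟩⟩
    have h4 : a + (x' - x) + x = a + x' := by abel
    have h5 : ∀ a ∈ A, (B (a + x') = true ↔ B (a + x) = true) := by
      intro a ha
      have := congrArg (fun s => a ∈ s) hpt
      simpa [pt, ha] using this
    simp only [tr, h4]
    rw [Bool.eq_iff_iff]
    exact h5 a ha
  refine ⟨A.powerset.biUnion fun P =>
    if h : ∃ x, tr x B ∈ V ∧ pt x = P then F.image (fun f => f + h.choose) else ∅, ?_, ?_⟩
  · refine Finset.card_biUnion_le_card_mul _ _ _ fun P _ => ?_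
    split_ifs with h
    · exact Finset.card_image_le
    · simp
  · intro x hx
    rw [Finset.mem_biUnion]
    have h : ∃ x', tr x' B ∈ V ∧ pt x' = pt x := ⟨x, hx, rfl⟩
    refine ⟨pt x, Finset.mem_powerset.2 (Finset.filter_subset _ _), ?_⟩
    rw [dif_pos h, Finset.mem_image]
    refine ⟨x - h.choose, hkey _ _ h.choose_spec.1 h.choose_spec.2.symm, ?_⟩
    abel

section Main

variable (S : DefSys K)
  (hadd : ∀ (ι : Type) (f g : (ι → K) → K), S.Tm f → S.Tm g → S.Tm fun p => f p + g p)
  {D : K → K → Prop} (hD : S.Def fun q : Fin 2 → K => D (q 0) (q 1))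
  (hfin : ∀ y, {x | D x y}.Finite) (hcof : ∀ x, {y | ¬ D x y}.Finite)
  [CharZero K]
  (hKZ : ∀ n : ℕ, ∃ r : Fin n → K, ∀ i j, i ≠ j → ∀ m : ℤ, r i - r j ≠ (m : K))

include hadd hD hfin hcof

/-- The induction lemma for clopen conditions. -/
theorem ei_clopen {B : K → Bool} (hB : B ∈ Cl D) {U : Set (K → Bool)} (hU : IsClopen U)
    {x0 h : K} (hh : ∀ n : ℕ, n ≠ 0 → n • h ≠ 0) (h0 : ∀ n : ℕ, tr (x0 + n • h) B ∈ U)
    (hE : {x | tr x B ∈ U ∧ tr (x + h) B ∉ U}.Finite) : {x | tr x B ∉ U}.Finite := by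
  classical
  -- a clopen set depends on finitely many places
  obtain ⟨A, hA⟩ : ∃ A : Finset K, ∀ C C' : K → Bool, (∀ a ∈ A, C a = C' a) → C ∈ U → C' ∈ U := by
    have hE : (univ : Set ((K → Bool) × (K → Bool))) ∩ ⋂ A : Finset K,
        {p : (K → Bool) × (K → Bool) | (∀ a ∈ A, p.1 a = p.2 a) ∧ p.1 ∈ U ∧ p.2 ∈ Uᶜ} = ∅ := by
      rw [eq_empty_iff_forall_notMem]
      rintro ⟨C, C'⟩ ⟨-, hC⟩
      have h1 := mem_iInter.1 hC
      have h2 : C = C' := funext fun a => (h1 {a}).1 a (Finset.mem_singleton_self a)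
      subst h2
      exact (h1 ∅).2.2 (h1 ∅).2.1
    obtain ⟨A, hA⟩ := isCompact_univ.elim_directed_family_closed
      (fun A : Finset K =>
        {p : (K → Bool) × (K → Bool) | (∀ a ∈ A, p.1 a = p.2 a) ∧ p.1 ∈ U ∧ p.2 ∈ Uᶜ})
      (by
        intro A
        have h1 : {p : (K → Bool) × (K → Bool) | (∀ a ∈ A, p.1 a = p.2 a) ∧ p.1 ∈ U ∧ p.2 ∈ Uᶜ} =
            (⋂ a ∈ A, {p : (K → Bool) × (K → Bool) | p.1 a = p.2 a}) ∩
              ((Prod.fst ⁻¹' U) ∩ (Prod.snd ⁻¹' Uᶜ)) := by
          ext p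
          simp
        rw [h1]
        refine IsClosed.inter ?_ ((hU.isClosed.preimage continuous_fst).inter
          (hU.compl.isClosed.preimage continuous_snd))
        refine isClosed_biInter fun a _ => ?_
        exact isClosed_eq ((continuous_apply a).comp continuous_fst)
          ((continuous_apply a).comp continuous_snd)) hE
      (by
        intro A1 A2
        refine ⟨A1 ∪ A2, ?_, ?_⟩
        · rintro p ⟨h1, h2⟩
          exact ⟨fun a ha => h1 a (Finset.mem_union_left _ ha), h2⟩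
        · rintro p ⟨h1, h2⟩
          exact ⟨fun a ha => h1 a (Finset.mem_union_right _ ha), h2⟩)
    refine ⟨A, fun C C' hCC' hC => ?_⟩
    by_contra hcon
    exact (eq_empty_iff_forall_notMem.1 hA (C, C')) ⟨mem_univ _, hCC', hC, hcon⟩
  -- the patterns
  let ind : Finset K → K → Bool := fun P a => decide (a ∈ P)
  let PP : Finset (Finset K) := A.powerset.filter fun P => ind P ∈ U
  have hUP : ∀ C : K → Bool, C ∈ U ↔ ∃ P ∈ PP, ∀ a ∈ A, (C a = true ↔ a ∈ P) := by
    intro C
    constructor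
    · intro hC
      refine ⟨A.filter fun a => C a = true, ?_, ?_⟩
      · rw [Finset.mem_filter]
        refine ⟨Finset.mem_powerset.2 (Finset.filter_subset _ _), hA C _ ?_ hC⟩
        intro a ha
        simp [ind, ha]
      · intro a ha
        simp [ha]
    · rintro ⟨P, hP, hPa⟩
      refine hA (ind P) C ?_ (Finset.mem_filter.1 hP).2
      intro a ha
      rw [Bool.eq_iff_iff, hPa a ha]
      simp [ind]
  let V : K → K → K → Prop := fun x y t => ∃ P ∈ PP, ∀ a ∈ A, (D (t + (a + x)) y ↔ a ∈ P)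
  have hne : Nonempty K := ⟨0⟩
  have hV : S.Def fun q : Fin 3 → K => V (q 0) (q 1) (q 2) := by
    have h1 : S.Def fun q : Fin 3 → K => ¬ ∀ P ∈ PP, ¬ ∀ a ∈ A,
        (D (q 2 + (a + q 0)) (q 1) ↔ a ∈ P) :=
      S.not (S.finset_all PP (P := fun P (q : Fin 3 → K) => ¬ ∀ a ∈ A,
        (D (q 2 + (a + q 0)) (q 1) ↔ a ∈ P)) fun P =>
          S.not (S.finset_all A (P := fun a (q : Fin 3 → K) =>
            (D (q 2 + (a + q 0)) (q 1) ↔ a ∈ P)) fun a =>
              S.iff (S.sub2 hD (hadd _ _ _ (S.var _) (hadd _ _ _ (S.const a) (S.var _)))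
                (S.var _)) (S.prop _)))
    refine S.congr h1 fun q => ?_
    push Not
    rfl
  refine ei S hadd hD hfin hcof hV (U := {x | tr x B ∈ U}) ?_ hh h0 hE
  intro F
  obtain ⟨y, t, hyt⟩ := hB ((A ×ˢ F).image fun p => p.1 + p.2)
  refine ⟨y, t, fun x hx => ?_⟩
  rw [mem_ofPred_eq, hUP]
  refine exists_congr fun P => and_congr_right fun _ => forall_congr' fun a => ?_
  refine imp_congr_right fun ha => ?_
  rw [hyt (a + x) (Finset.mem_image.2 ⟨(a, x), Finset.mem_product.2 ⟨ha, hx⟩, rfl⟩)]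
  rfl

include hKZ

/-- (3) The derivative of a connected family is connected. -/
theorem der_conn {X : Set (K → Bool)} (hX : CFam D X)
    (hdich : ∀ (A : Finset K) (C : K → Bool), (Bad X A C).Finite ∨ (Bad X A C)ᶜ.Finite)
    (U : Set (K → Bool)) : ¬ Sep (der X) U := by
  classical
  rintro ⟨hU, h1, h0, hs⟩
  have hV : IsClopen (U ∩ (act 1 ⁻¹' Uᶜ)) := hU.inter (hU.compl.preimage (continuous_act 1))
  obtain ⟨M, hM⟩ := exists_bound hX.closed hX.inv hdich hV (by
    rintro B hB ⟨hB1, hB2⟩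
    exact hB2 (hs B hB hB1))
  obtain ⟨r, hr⟩ := hKZ (M + 1)
  -- one of the cosets is free of exits
  have hfree : ∀ B ∈ X, ∃ i, ∀ n : ℤ, tr (r i + (n : K)) B ∉ U ∩ (act 1 ⁻¹' Uᶜ) := by
    intro B hB
    obtain ⟨G, hG, hGV⟩ := hM B hB
    by_contra hcon
    push Not at hcon
    choose n hn using hcon
    have hc : Fintype.card G < Fintype.card (Fin (M + 1)) := by
      simpa using Nat.lt_succ_of_le hG
    obtain ⟨i, j, hij, he⟩ := Fintype.exists_ne_map_eq_of_card_lt
      (fun i => (⟨r i + (n i : K), hGV _ (hn i)⟩ : G)) hc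
    have he' : r i + (n i : K) = r j + (n j : K) := congrArg Subtype.val he
    refine hr i j hij (n j - n i) ?_
    push_cast
    have h3 : r i = r j + (n j : K) - (n i : K) := by rw [← he']; abel
    rw [h3]
    abel
  let W : Set (K → Bool) := {B | ∀ i, tr (r i) B ∈ U}
  have hW : IsClopen W := by
    have h2 : W = ⋂ i, tr (r i) ⁻¹' U := by
      ext B
      simp [W]
    rw [h2]
    exact isClopen_iInter_of_finite fun i => hU.preimage (continuous_tr _)
  have hWone : (fun _ => true) ∈ W := fun i => h1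
  have hWzero : (fun _ => false) ∉ W := fun h => h0 (h 0)
  -- no member of `W` leaves `W` for ever
  have hstay : ∀ B ∈ X, B ∈ W → ∃ j : ℕ, act ((j : ℤ) + 1) B ∈ W := by
    intro B hB hBW
    obtain ⟨i, hi⟩ := hfree B hB
    have hall : ∀ n : ℕ, tr (r i + (n : K)) B ∈ U := by
      intro n
      induction n with
      | zero => simpa using hBW i
      | succ n ih =>
        by_contra hcon
        refine hi (n : ℤ) ⟨by simpa using ih, ?_⟩
        rw [mem_preimage, act_eq_tr, tr_tr]
        have h2 : ((1 : ℤ) : K) + (r i + ((n : ℤ) : K)) = r i + ((n + 1 : ℕ) : K) := by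
          push_cast
          abel
        rw [h2]
        exact hcon
    obtain ⟨G, -, hGV⟩ := hM B hB
    have h2 : {x | tr x B ∉ U}.Finite := by
      refine ei_clopen S hadd hD hfin hcof (hX.cl hB) hU (x0 := r i) (h := 1) one_nsmul_ne ?_ ?_
      · intro n
        rw [nsmul_one]
        exact hall n
      · refine G.finite_toSet.subset ?_
        rintro x ⟨hx1, hx2⟩
        refine hGV x ⟨hx1, ?_⟩
        rw [mem_preimage, act_eq_tr, tr_tr]
        have h2 : ((1 : ℤ) : K) + x = x + 1 := by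
          push_cast
          abel
        rw [h2]
        exact hx2
    have h3 : (⋃ i, {j : ℕ | tr (r i + ((j : ℤ) + 1 : ℤ)) B ∉ U}).Finite := by
      refine Set.finite_iUnion fun i => ?_
      refine h2.preimage (f := fun j : ℕ => r i + (((j : ℤ) + 1 : ℤ) : K)) ?_
      intro a _ b _ hab
      have h4 := add_left_cancel hab
      have h5 : ((a : ℤ) + 1) = (b : ℤ) + 1 := Int.cast_injective h4
      omega
    obtain ⟨j, hj⟩ := h3.infinite_compl.nonempty
    refine ⟨j, fun i => ?_⟩
    rw [act_eq_tr, tr_tr]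
    by_contra hcon
    exact hj (mem_iUnion.2 ⟨i, hcon⟩)
  -- finitely many translates of `W` suffice
  obtain ⟨N, hN⟩ : ∃ N : ℕ, ∀ B ∈ X, act (-((N : ℤ) + 1)) B ∈ W →
      ∃ m : ℕ, m ≤ N ∧ act (-(m : ℤ)) B ∈ W := by
    by_contra hcon
    push Not at hcon
    let Z : ℕ → Set (K → Bool) := fun N => (X ∩ W) ∩ ⋂ j ∈ Finset.range (N + 1),
      act ((j : ℤ) + 1) ⁻¹' Wᶜ
    have hZcl : ∀ N, IsClosed (Z N) := fun N => (hX.closed.inter hW.isClosed).inter
      (isClosed_biInter fun j _ => (hW.compl.preimage (continuous_act _)).isClosed)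
    obtain ⟨B, hB⟩ := IsCompact.nonempty_iInter_of_sequence_nonempty_isCompact_isClosed Z
      (by
        rintro N B ⟨hB, hB'⟩
        refine ⟨hB, ?_⟩
        simp only [mem_iInter] at hB' ⊢
        intro j hj
        exact hB' j (Finset.mem_range.2 (by have := Finset.mem_range.1 hj; omega)))
      (by
        intro N
        obtain ⟨B, hB, hBW, hBn⟩ := hcon N
        refine ⟨act (-((N : ℤ) + 1)) B, ⟨hX.inv _ B hB, hBW⟩, ?_⟩
        simp only [mem_iInter]
        intro j hj
        have hj' := Finset.mem_range.1 hj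
        have h2 := hBn (N - j) (by omega)
        rw [mem_preimage, act_act]
        have h3 : (j : ℤ) + 1 + -((N : ℤ) + 1) = -((N - j : ℕ) : ℤ) := by
          push_cast [Nat.cast_sub (show j ≤ N by omega)]
          ring
        rw [h3]
        exact h2) (hZcl 0).isCompact hZcl
    have hBX : B ∈ X := (mem_iInter.1 hB 0).1.1
    have hBW : B ∈ W := (mem_iInter.1 hB 0).1.2
    obtain ⟨j, hj⟩ := hstay B hBX hBW
    have h2 := (mem_iInter.1 hB j).2
    simp only [mem_iInter] at h2
    exact h2 j (Finset.mem_range.2 (by omega)) hj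
  -- the separating set
  let W' : Set (K → Bool) := ⋃ m ∈ Finset.range (N + 1), act (-(m : ℤ)) ⁻¹' W
  refine hX.conn W' ⟨?_, ?_, ?_, ?_⟩
  · exact (Finset.range (N + 1)).finite_toSet.isClopen_biUnion fun m _ =>
      hW.preimage (continuous_act _)
  · refine mem_iUnion₂.2 ⟨0, Finset.mem_range.2 (by omega), ?_⟩
    rw [mem_preimage, act_const]
    exact hWone
  · intro h
    obtain ⟨m, -, hm⟩ := mem_iUnion₂.1 h
    rw [mem_preimage, act_const] at hm
    exact hWzero hm
  · intro B hB hBW'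
    obtain ⟨m, hm, hmB⟩ := mem_iUnion₂.1 hBW'
    have hm' := Finset.mem_range.1 hm
    rw [mem_preimage] at hmB
    have h2 : act (-((m : ℤ) + 1)) (act 1 B) ∈ W := by
      rw [act_act]
      have : -((m : ℤ) + 1) + 1 = -(m : ℤ) := by ring
      rw [this]
      exact hmB
    by_cases hmN : m = N
    · subst hmN
      obtain ⟨m', hm', hmB'⟩ := hN (act 1 B) (hX.inv _ B hB) h2
      exact mem_iUnion₂.2 ⟨m', Finset.mem_range.2 (by omega), hmB'⟩
    · refine mem_iUnion₂.2 ⟨m + 1, Finset.mem_range.2 (by omega), ?_⟩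
      rw [mem_preimage]
      push_cast
      exact h2

theorem CFam.der {X : Set (K → Bool)} (hX : CFam D X)
    (hdich : ∀ (A : Finset K) (C : K → Bool), (Bad X A C).Finite ∨ (Bad X A C)ᶜ.Finite) :
    CFam D (der X) :=
  ⟨der_closed hX.closed, der_inv hX.inv, der_const _ hX.zero, der_const _ hX.one,
    der_conn S hadd hD hfin hcof hKZ hX hdich, fun _ hB => hX.cl hB.1⟩

/-- (4) Members of the derivative which contain `0` and not `1`, as limits of translates of an
infinite and coinfinite member. -/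
theorem CFam.exists_start {X : Set (K → Bool)} (hX : CFam D X)
    (hdich : ∀ (A : Finset K) (C : K → Bool), (Bad X A C).Finite ∨ (Bad X A C)ᶜ.Finite) :
    ∃ B ∈ X, ∃ C ∈ FULL.der X, C 0 = true ∧ C 1 = false ∧
      {b | B b = true}.Infinite ∧ {b | B b = false}.Infinite ∧
      ∀ A : Finset K, {u | ∀ a ∈ A, B (a + u) = C a}.Infinite := by
  classical
  have hinf : Infinite K := Infinite.of_injective (fun n : ℕ => (n : K)) Nat.cast_injective
  have hcount : Countable K := by
    have h1 : (⋃ n : ℕ, {x | D x (n : K)}).Countable :=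
      countable_iUnion fun n => (hfin _).countable
    have h2 : (⋃ n : ℕ, {x | D x (n : K)}) = univ := by
      rw [eq_univ_iff_forall]
      intro x
      by_contra hcon
      simp only [mem_iUnion, not_exists] at hcon
      exact Set.infinite_of_injective_forall_mem (f := fun n : ℕ => (n : K))
        Nat.cast_injective hcon (hcof x)
    rw [h2] at h1
    exact countable_univ_iff.1 h1
  obtain ⟨B, hB, hB1, hB2⟩ : ∃ B ∈ X, {b | B b = true}.Infinite ∧ {b | B b = false}.Infinite := by
    by_contra hcon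
    refine adm_false hX.adm ?_
    intro B hB
    by_contra hcon2
    rw [not_or] at hcon2
    exact hcon ⟨B, hB, hcon2.1, hcon2.2⟩
  have hex := exits_infinite S hadd hD hfin hcof hKZ (hX.cl hB) hB1 hB2
  have hNe : (cofinite ⊓ 𝓟 {u | B u = true ∧ B (u + 1) = false} : Filter K).NeBot := by
    exact hex.cofinite_inf_principal_neBot
  obtain ⟨G, hG⟩ := Ultrafilter.exists_le (cofinite ⊓ 𝓟 {u | B u = true ∧ B (u + 1) = false})
  have hGc : (G : Filter K) ≤ cofinite := hG.trans inf_le_left
  have hGe : ∀ᶠ u in (G : Filter K), B u = true ∧ B (u + 1) = false :=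
    hG (mem_inf_of_right (mem_principal_self _))
  let C : K → Bool := fun a => decide (∀ᶠ u in (G : Filter K), B (a + u) = true)
  have hCev : ∀ a, ∀ᶠ u in (G : Filter K), B (a + u) = C a := by
    intro a
    by_cases h : ∀ᶠ u in (G : Filter K), B (a + u) = true
    · have h2 : C a = true := by simp [C, h]
      rw [h2]
      exact h
    · have h2 : C a = false := by simp [C, h]
      rw [h2]
      have h3 := Ultrafilter.eventually_not.2 h
      exact h3.mono fun u hu => by simpa using hu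
  have hCA : ∀ A : Finset K, ∀ᶠ u in (G : Filter K), ∀ a ∈ A, B (a + u) = C a := by
    intro A
    rw [Filter.eventually_all_finset]
    exact fun a _ => hCev a
  have hinfA : ∀ A : Finset K, {u | ∀ a ∈ A, B (a + u) = C a}.Infinite := by
    intro A hfinA
    have h1 : ∀ᶠ u in (G : Filter K), u ∉ {u | ∀ a ∈ A, B (a + u) = C a} :=
      hGc hfinA.compl_mem_cofinite
    obtain ⟨u, hu1, hu2⟩ := (h1.and (hCA A)).exists
    exact hu1 hu2
  have hC0 : C 0 = true := by
    obtain ⟨u, hu1, hu2⟩ := (hGe.and (hCev 0)).exists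
    rw [← hu2, zero_add]
    exact hu1.1
  have hC1 : C 1 = false := by
    obtain ⟨u, hu1, hu2⟩ := (hGe.and (hCev 1)).exists
    rw [← hu2, add_comm]
    exact hu1.2
  have hCX : C ∈ X := by
    by_contra hcon
    obtain ⟨I, u, hu, hsub⟩ := isOpen_pi_iff.1 hX.closed.isOpen_compl _ hcon
    obtain ⟨v, hv⟩ := (hinfA I).nonempty
    have : tr v B ∈ Xᶜ := by
      apply hsub
      intro a ha
      have h2 : tr v B a = C a := hv a ha
      rw [h2]
      exact (hu a ha).2
    exact this (hX.inv v B hB)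
  refine ⟨B, hB, C, ⟨hCX, ?_⟩, hC0, hC1, hB1, hB2, hinfA⟩
  intro A
  refine (hdich A C).resolve_right fun hfinc => ?_
  obtain ⟨u1, hu1⟩ := (hinfA A).nonempty
  have h2 : ((fun u => u - u1) '' {u | ∀ a ∈ A, B (a + u) = C a}).Infinite :=
    (hinfA A).image (fun a _ b _ hab => sub_left_injective hab)
  refine h2 (hfinc.subset ?_)
  rintro _ ⟨u, hu, rfl⟩
  rw [mem_compl_iff]
  intro hcon
  apply hcon
  refine ⟨tr u1 B, hX.inv u1 B hB, fun a ha => ⟨hu1 a ha, ?_⟩⟩
  have h4 : a + (u - u1) + u1 = a + u := by abel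
  simp only [tr, h4]
  exact hu a ha

end Main

namespace Fam

variable [CharZero K] (F : Fam K)

theorem cfam_TT : CFam F.D (TT F.D) := by
  have h := adm_TT F.D F.fin F.cof F.hmin
  have h' := F.good_TT
  exact ⟨h.closed, h'.inv, h'.zero, h'.one, h.conn, h'.sub⟩

omit [CharZero K] in
theorem bad_dich (n : ℕ) (A : Finset K) (C : K → Bool) :
    (Bad (Tn F.D n) A C).Finite ∨ (Bad (Tn F.D n) A C)ᶜ.Finite := by
  rcases (F.good_Tn n).dich A C with h | h
  · right
    refine h.subset ?_
    intro t ht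
    by_contra hcon
    exact ht hcon
  · exact Or.inl h

/-- All derivatives are connected. -/
theorem cfam_Tn (n : ℕ) : CFam F.D (Tn F.D n) := by
  induction n with
  | zero => exact F.cfam_TT
  | succ n ih =>
    exact CFam.der F.S (fun _ _ _ => F.add) F.dD F.fin F.cof F.idx ih (F.bad_dich n)

/-- Members of all derivatives which contain `0` and not `1`. -/
theorem Tn_start (n : ℕ) : ∃ C ∈ Tn F.D n, C 0 = true ∧ C 1 = false := by
  obtain ⟨-, -, C, hC, h0, h1, -⟩ :=
    CFam.exists_start F.S (fun _ _ _ => F.add) F.dD F.fin F.cof F.idx (F.cfam_Tn n) (F.bad_dich n)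
  exact ⟨C, hC.1, h0, h1⟩

omit [CharZero K] in
theorem Yfin {h : K} (hh : h ≠ 0) :
    {w | ∃ y t, F.D t y ∧ ¬ F.D (t + 1) y ∧
      ∀ x, F.D x w → (F.D (t + (x + h)) y ↔ F.D (t + x) y)}.Finite :=
  Y_finite F.S (fun _ _ _ => F.add) F.dD F.fin F.cof (F.tf h hh)

/-- The starting point of the coding. -/
theorem code_start : ∃ B0 ∈ TT F.D, ∃ C0 ∈ TT F.D, C0 0 = true ∧ C0 1 = false ∧
    {b | B0 b = true}.Infinite ∧ {b | B0 b = false}.Infinite ∧
    (∀ x x' : K, tr x C0 = tr x' C0 → x = x') ∧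
    ∀ A : Finset K, {u | ∀ a ∈ A, B0 (a + u) = C0 a}.Infinite := by
  obtain ⟨B, hB, C, hC, h0, h1, h2, h3, h4⟩ :=
    CFam.exists_start F.S (fun _ _ _ => F.add) F.dD F.fin F.cof F.idx (F.cfam_Tn 0) (F.bad_dich 0)
  refine ⟨B, hB, C, hC.1, h0, h1, h2, h3, ?_, h4⟩
  intro x x' hxx'
  by_contra hne
  have hne' : x - x' ≠ 0 := sub_ne_zero.2 hne
  have hp : ∀ a, C (a + (x - x')) = C a := by
    intro a
    have h5 := congrFun hxx' (a - x')
    simp only [tr] at h5
    have e1 : a - x' + x = a + (x - x') := by abel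
    have e2 : a - x' + x' = a := by abel
    rwa [e1, e2] at h5
  rcases per_const F.S (fun _ _ _ => F.add) F.dD F.fin F.cof (F.good_TT.sub hC.1)
    (F.tf _ hne') hp with h5 | h5
  · rw [h5] at h0
    simp at h0
  · rw [h5] at h1
    simp at h1

end Fam

end Pool.Agent.Lib.MP_097535_lc.FULL
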