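import Pool.Agent.Lib.MP_097535_lc.FULL.Comb

/-!
# Construction of the generic finite sets (section (6))

Abstract form: a family `𝒢` of sets, predicates `Pat` and `Rec`.
-/

set_option autoImplicit false

namespace Pool.Agent.Lib.MP_097535_lc.FULL

open Set Filter

variable {K : Type*} [Field K]

/-- The abstract hypotheses of the construction. -/
structure Sys (D Y : K → Set K) (𝒢 : Set (Set K)) (Pat : ℕ → K → Set K → Prop)
    (Rec : ℕ → K → Set K → K → Prop) : Prop where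
  fin : ∀ y, (D y).Finite
  cof : ∀ x, {y | x ∉ D y}.Finite
  yfin : ∀ h ≠ 0, (Y h).Finite
  ymem : ∀ G ∈ 𝒢, (0 : K) ∈ G → (1 : K) ∉ G → ∀ h w, h ≠ 0 →
    (∀ x ∈ D w, (x + h ∈ G ↔ x ∈ G)) → w ∈ Y h
  pat : ∀ n w, ∀ G ∈ 𝒢, Pat (n + 1) w G → {t | ¬ Rec n w G t}.Finite
  rec1 : ∀ n w, ∀ G ∈ 𝒢, ∀ t, Rec n w G t →
    {w' | ¬ ∃ G' ∈ 𝒢, (∀ x ∈ D w, (x ∈ G' ↔ x ∈ G)) ∧ (∀ x ∈ D w, (x + t ∈ G' ↔ x ∈ G)) ∧
      Pat n w' G'}.Finite
  rec2 : ∀ n w, ∀ G ∈ 𝒢, ∀ t w', ∀ G' ∈ 𝒢, Pat n w' G' → (∀ x ∈ D w, x ∈ D w') →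
    (∀ x ∈ D w, x + t ∈ D w') → (∀ x ∈ D w, (x ∈ G' ↔ x ∈ G)) →
    (∀ x ∈ D w, (x + t ∈ G' ↔ x ∈ G)) → Rec n w G t
  start : ∀ n, {w | ¬ ∃ G ∈ 𝒢, (0 : K) ∈ G ∧ (1 : K) ∉ G ∧ Pat n w G}.Finite

/-- The list `b 1, …, b j`. -/
def pre (b : ℕ → K) (j : ℕ) : List K := (List.range j).map fun k => b (k + 1)

omit [Field K] in
theorem pre_succ (b : ℕ → K) (j : ℕ) : pre b (j + 1) = pre b j ++ [b (j + 1)] := by
  simp [pre, List.range_succ]

omit [Field K] in
theorem pre_congr {b b' : ℕ → K} {j : ℕ} (h : ∀ k ≤ j, b k = b' k) : pre b j = pre b' j := by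
  unfold pre
  apply List.map_congr_left
  intro k hk
  rw [List.mem_range] at hk
  exact h (k + 1) (by omega)

omit [Field K] in
theorem mem_pre {b : ℕ → K} {j : ℕ} {x : K} : x ∈ pre b j ↔ ∃ i, 1 ≤ i ∧ i ≤ j ∧ x = b i := by
  unfold pre
  simp only [List.mem_map, List.mem_range]
  constructor
  · rintro ⟨k, hk, rfl⟩
    exact ⟨k + 1, by omega, by omega, rfl⟩
  · rintro ⟨i, h1, h2, rfl⟩
    exact ⟨i - 1, by omega, by congr 1; omega⟩

/-- The invariant of the construction. -/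
structure Inv (D Y : K → Set K) (Pat : ℕ → K → Set K → Prop) (Gd : ℕ → List K → Prop)
    (vO : List K → K) (m i : ℕ) (b w : ℕ → K) (G : Set K) : Prop where
  b0 : b 0 = 0
  g0 : (0 : K) ∈ G
  g1 : (1 : K) ∉ G
  d0 : (0 : K) ∈ D (w i)
  d1 : (1 : K) ∈ D (w i)
  pat : Pat (m - i) (w i) G
  xx : ∀ j ≤ i, w j ∉ XX D Y (b j)
  nested : ∀ j ≤ i, ∀ x ∈ D (w j), x ∈ D (w i)
  nest : ∀ j < i, ∀ x ∈ D (w j), x ∈ D (w (j + 1))
  shift : ∀ j < i, ∀ x ∈ D (w j), x + (b (j + 1) - b j) ∈ D (w (j + 1))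
  add : ∀ j < i, ∀ a ∈ Z0 D (b (j + 1)), ∀ x ∈ D (w j), x + (a - b j) ∈ D (w (j + 1))
  rec' : ∀ j < i, ∀ x ∈ D (w j), (x + (b (j + 1) - b j) ∈ G ↔ x ∈ G)
  king : ∀ j < i, ∀ t, t ≠ 0 → (∀ x ∈ D (w j), x + t ∈ D (w (j + 1))) →
    (∀ x ∈ D (w j), (x + t ∈ G ↔ x ∈ G)) → b (j + 1) - b j ∈ X1 D t
  good : Gd (m - i) (pre b i)
  ok : ∀ j, 1 ≤ j → j ≤ i → b j ∉ Gam D Y ∧ b j ≠ 0
  ex : i < m → ∀ g, g ≠ b i → (¬ Gd (m - i - 1) (pre b i ++ [g]) ∨ g ∈ Gam D Y ∨ g = 0) →
    w i ∉ Y (g - b i)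
  last : ∀ x ∈ D (vO (pre b i)), w i ∉ X2 D Y x

section

variable {D Y : K → Set K} {𝒢 : Set (Set K)} {Pat : ℕ → K → Set K → Prop}
  {Rec : ℕ → K → Set K → K → Prop} {Gd : ℕ → List K → Prop} {vO : List K → K} {m : ℕ}

/-- The finite set to be avoided by `w i` (apart from the inclusions). -/
def Av (D Y : K → Set K) (Gd : ℕ → List K → Prop) (vO : List K → K) (m i : ℕ) (l : List K)
    (b : K) : Set K :=
  XX D Y b ∪ (⋃ x ∈ D (vO l), X2 D Y x) ∪
    {w | i < m ∧ ∃ g, g ≠ b ∧ (¬ Gd (m - i - 1) (l ++ [g]) ∨ g ∈ Gam D Y ∨ g = 0) ∧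
      w ∈ Y (g - b)}

theorem Av_finite (S : Sys D Y 𝒢 Pat Rec)
    (hGd : ∀ k l, Gd (k + 1) l → {x | ¬ Gd k (l ++ [x])}.Finite) {i : ℕ} {l : List K} {b : K}
    (hl : Gd (m - i) l) : (Av D Y Gd vO m i l b).Finite := by
  have h1 := XX_finite S.fin S.cof S.yfin b
  have h2 : (⋃ x ∈ D (vO l), X2 D Y x).Finite :=
    (S.fin _).biUnion fun x _ => X2_finite S.fin S.cof S.yfin x
  refine (h1.union h2).union ?_
  by_cases hi : i < m
  · have h3 : {x | ¬ Gd (m - i - 1) (l ++ [x])}.Finite := by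
      apply hGd
      have : m - i - 1 + 1 = m - i := by omega
      rw [this]
      exact hl
    have h4 : ({x | ¬ Gd (m - i - 1) (l ++ [x])} ∪ Gam D Y ∪ {0}).Finite :=
      (h3.union (Gam_finite S.fin S.cof S.yfin)).union (finite_singleton 0)
    refine (((h4.sdiff (t := {b})).biUnion
      (t := fun g => Y (g - b)) fun g hg => S.yfin _ (sub_ne_zero.mpr hg.2))).subset ?_
    rintro w ⟨_, g, hg, hg', hw⟩
    simp only [mem_iUnion]
    refine ⟨g, ⟨?_, hg⟩, hw⟩
    rcases hg' with h | h | h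
    · exact Or.inl (Or.inl h)
    · exact Or.inl (Or.inr h)
    · exact Or.inr h
  · refine finite_empty.subset ?_
    rintro w ⟨h, _⟩
    exact hi h

theorem Inv.start [CharZero K] (S : Sys D Y 𝒢 Pat Rec)
    (hGd : ∀ k l, Gd (k + 1) l → {x | ¬ Gd k (l ++ [x])}.Finite) (hG0 : Gd m []) :
    ∃ b w : ℕ → K, ∃ G ∈ 𝒢, Inv D Y Pat Gd vO m 0 b w G := by
  have hinf : Infinite K := inferInstance
  have h1 : (Av D Y Gd vO m 0 [] 0).Finite := Av_finite S hGd hG0
  obtain ⟨w, hw⟩ := ((((h1.union (S.start m)).union (S.cof 0)).union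
    (S.cof 1))).exists_notMem
  simp only [mem_union, not_or, mem_ofPred_eq, not_not] at hw
  obtain ⟨⟨⟨hw1, G, hG, hG0', hG1, hP⟩, hd0⟩, hd1⟩ := hw
  unfold Av at hw1
  simp only [mem_union, not_or, mem_iUnion, not_exists, mem_ofPred_eq, not_and] at hw1
  obtain ⟨⟨a1, a2⟩, a3⟩ := hw1
  refine ⟨fun _ => 0, fun _ => w, G, hG, ?_⟩
  exact
    { b0 := rfl
      g0 := hG0'
      g1 := hG1
      d0 := hd0
      d1 := hd1
      pat := hP
      xx := fun j _ => a1
      nested := fun j _ x hx => hx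
      nest := fun j hj => absurd hj (by omega)
      shift := fun j hj => absurd hj (by omega)
      add := fun j hj => absurd hj (by omega)
      rec' := fun j hj => absurd hj (by omega)
      king := fun j hj => absurd hj (by omega)
      good := hG0
      ok := fun j h1 h2 => absurd h1 (by omega)
      ex := fun h0 g hg hg' => a3 h0 g hg hg'
      last := fun x hx => a2 x hx }

theorem Inv.step [CharZero K] (S : Sys D Y 𝒢 Pat Rec)
    (hGd : ∀ k l, Gd (k + 1) l → {x | ¬ Gd k (l ++ [x])}.Finite) {i : ℕ} (him : i < m)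
    {b w : ℕ → K} {G : Set K} (hG : G ∈ 𝒢) (I : Inv D Y Pat Gd vO m i b w G) :
    ∃ b w : ℕ → K, ∃ G ∈ 𝒢, Inv D Y Pat Gd vO m (i + 1) b w G := by
  have hinf : Infinite K := inferInstance
  obtain ⟨n, hn⟩ : ∃ n, m - i = n + 1 := ⟨m - i - 1, by omega⟩
  have hn' : m - (i + 1) = n := by omega
  have hn'' : m - i - 1 = n := by omega
  -- the distances
  have hpat := I.pat
  rw [hn] at hpat
  have hRfin := S.pat n _ G hG hpat
  have hRne : {t | t ≠ 0 ∧ Rec n (w i) G t}.Nonempty := by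
    obtain ⟨t, ht⟩ := (hRfin.union (finite_singleton 0)).exists_notMem
    simp only [mem_union, mem_ofPred_eq, not_or, not_not, mem_singleton_iff] at ht
    exact ⟨t, ht.2, ht.1⟩
  obtain ⟨h, ⟨hh0, hRec⟩, hking⟩ := FULL.king S.fin S.cof hRne
  -- the new set
  have hw1 := S.rec1 n _ G hG h hRec
  have hgood' : ∀ G' ∈ 𝒢, (∀ x ∈ D (w i), (x ∈ G' ↔ x ∈ G)) →
      (∀ x ∈ D (w i), (x + h ∈ G' ↔ x ∈ G)) →
      Gd n (pre b i ++ [b i + h]) ∧ b i + h ∉ Gam D Y ∧ b i + h ≠ 0 := by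
    intro G' hG' e1 e2
    by_contra hcon
    have hbad : ¬ Gd (m - i - 1) (pre b i ++ [b i + h]) ∨ b i + h ∈ Gam D Y ∨ b i + h = 0 := by
      rw [hn'']
      tauto
    have h1 := I.ex him (b i + h) (by simpa using hh0) hbad
    rw [add_sub_cancel_left] at h1
    apply h1
    refine S.ymem G' hG' ?_ ?_ h (w i) hh0 fun x hx => ?_
    · rw [e1 0 I.d0]
      exact I.g0
    · rw [e1 1 I.d1]
      exact I.g1
    · rw [e1 x hx, e2 x hx]
  have hgood : Gd n (pre b i ++ [b i + h]) ∧ b i + h ∉ Gam D Y ∧ b i + h ≠ 0 := by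
    obtain ⟨w', hw'⟩ := hw1.exists_notMem
    simp only [mem_ofPred_eq, not_not] at hw'
    obtain ⟨G', hG', e1, e2, _⟩ := hw'
    exact hgood' G' hG' e1 e2
  have hAv : (Av D Y Gd vO m (i + 1) (pre b i ++ [b i + h]) (b i + h)).Finite := by
    apply Av_finite S hGd
    rw [hn']
    exact hgood.1
  have hadd : {w' | ∃ a ∈ Z0 D (b i + h), ∃ x ∈ D (w i), x + (a - b i) ∉ D w'}.Finite := by
    have : {w' | ∃ a ∈ Z0 D (b i + h), ∃ x ∈ D (w i), x + (a - b i) ∉ D w'} ⊆
        ⋃ a ∈ Z0 D (b i + h), {w' | ∃ x ∈ (fun x => x + (a - b i)) '' D (w i), x ∉ D w'} := by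
      rintro w' ⟨a, ha, x, hx, hx'⟩
      simp only [mem_iUnion]
      exact ⟨a, ha, _, ⟨x, hx, rfl⟩, hx'⟩
    refine Set.Finite.subset ?_ this
    exact (Z0_finite S.fin S.cof _).biUnion fun a _ => notSub_finite S.cof ((S.fin _).image _)
  obtain ⟨w', hw'⟩ := ((((hw1.union hAv).union hadd).union
    (notSub_finite S.cof (S.fin (w i)))).union
    (notSub_finite S.cof ((S.fin (w i)).image fun x => x + h))).exists_notMem
  simp only [mem_union, not_or] at hw'
  obtain ⟨⟨⟨⟨c1, c2⟩, c3⟩, c4⟩, c5⟩ := hw'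
  simp only [mem_ofPred_eq, not_not] at c1
  obtain ⟨G', hG', e1, e2, e3⟩ := c1
  have c3' : ∀ a ∈ Z0 D (b i + h), ∀ x ∈ D (w i), x + (a - b i) ∈ D w' := by
    intro a ha x hx
    by_contra hc
    exact c3 ⟨a, ha, x, hx, hc⟩
  have c4' : ∀ x ∈ D (w i), x ∈ D w' := by
    intro x hx
    by_contra hc
    exact c4 ⟨x, hx, hc⟩
  have c5' : ∀ x ∈ D (w i), x + h ∈ D w' := by
    intro x hx
    by_contra hc
    exact c5 ⟨x + h, ⟨x, hx, rfl⟩, hc⟩
  unfold Av at c2
  simp only [mem_union, not_or, mem_iUnion, not_exists, mem_ofPred_eq, not_and] at c2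
  obtain ⟨⟨a1, a2⟩, a3⟩ := c2
  -- the new sequences
  let b' : ℕ → K := fun j => if j ≤ i then b j else b i + h
  let w'' : ℕ → K := fun j => if j ≤ i then w j else w'
  have hb : ∀ j ≤ i, b' j = b j := fun j hj => if_pos hj
  have hw : ∀ j ≤ i, w'' j = w j := fun j hj => if_pos hj
  have hb1 : b' (i + 1) = b i + h := if_neg (by omega)
  have hw1' : w'' (i + 1) = w' := if_neg (by omega)
  have hpre : pre b' i = pre b i := pre_congr hb
  have hpre1 : pre b' (i + 1) = pre b i ++ [b i + h] := by rw [pre_succ, hpre, hb1]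
  refine ⟨b', w'', G', hG', ?_⟩
  have tr : ∀ j < i, ∀ x ∈ D (w j), ∀ t, x + t ∈ D (w (j + 1)) →
      ((x + t ∈ G' ↔ x ∈ G') ↔ (x + t ∈ G ↔ x ∈ G)) := by
    intro j hj x hx t ht
    rw [e1 x (I.nested j hj.le x hx), e1 (x + t) (I.nested (j + 1) (by omega) _ ht)]
  exact
    { b0 := by rw [hb 0 (by omega)]; exact I.b0
      g0 := by rw [e1 0 I.d0]; exact I.g0
      g1 := by rw [e1 1 I.d1]; exact I.g1
      d0 := by rw [hw1']; exact c4' 0 I.d0
      d1 := by rw [hw1']; exact c4' 1 I.d1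
      pat := by rw [hw1', hn']; exact e3
      xx := by
        intro j hj
        rcases Nat.lt_or_ge j (i + 1) with h1 | h1
        · rw [hw j (by omega), hb j (by omega)]
          exact I.xx j (by omega)
        · obtain rfl : j = i + 1 := by omega
          rw [hw1', hb1]
          exact a1
      nested := by
        intro j hj x hx
        rcases Nat.lt_or_ge j (i + 1) with h1 | h1
        · rw [hw j (by omega)] at hx
          rw [hw1']
          exact c4' x (I.nested j (by omega) x hx)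
        · obtain rfl : j = i + 1 := by omega
          exact hx
      nest := by
        intro j hj x hx
        rw [hw j (by omega)] at hx
        rcases Nat.lt_or_ge j i with h1 | h1
        · rw [hw (j + 1) (by omega)]
          exact I.nest j h1 x hx
        · obtain rfl : j = i := by omega
          rw [hw1']
          exact c4' x hx
      shift := by
        intro j hj x hx
        rw [hw j (by omega)] at hx
        rcases Nat.lt_or_ge j i with h1 | h1
        · rw [hw (j + 1) (by omega), hb j (by omega), hb (j + 1) (by omega)]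
          exact I.shift j h1 x hx
        · obtain rfl : j = i := by omega
          rw [hw1', hb1, hb j le_rfl, add_sub_cancel_left]
          exact c5' x hx
      add := by
        intro j hj a ha x hx
        rw [hw j (by omega)] at hx
        rcases Nat.lt_or_ge j i with h1 | h1
        · rw [hw (j + 1) (by omega), hb j (by omega)]
          rw [hb (j + 1) (by omega)] at ha
          exact I.add j h1 a ha x hx
        · obtain rfl : j = i := by omega
          rw [hb1] at ha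
          rw [hw1', hb j le_rfl]
          exact c3' a ha x hx
      rec' := by
        intro j hj x hx
        rw [hw j (by omega)] at hx
        rcases Nat.lt_or_ge j i with h1 | h1
        · rw [hb j (by omega), hb (j + 1) (by omega),
            tr j h1 x hx _ (I.shift j h1 x hx)]
          exact I.rec' j h1 x hx
        · obtain rfl : j = i := by omega
          rw [hb1, hb j le_rfl, add_sub_cancel_left, e1 x hx, e2 x hx]
      king := by
        intro j hj t ht0 ht1 ht2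
        rw [hw j (by omega)] at ht1 ht2
        rcases Nat.lt_or_ge j i with h1 | h1
        · rw [hw (j + 1) (by omega)] at ht1
          rw [hb j (by omega), hb (j + 1) (by omega)]
          refine I.king j h1 t ht0 ht1 fun x hx => ?_
          rw [← tr j h1 x hx t (ht1 x hx)]
          exact ht2 x hx
        · obtain rfl : j = i := by omega
          rw [hw1'] at ht1
          rw [hb1, hb j le_rfl, add_sub_cancel_left]
          refine hking t ⟨ht0, ?_⟩
          refine S.rec2 n (w j) G hG t w' G' hG' e3 c4' ht1 e1 fun x hx => ?_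
          rw [ht2 x hx, e1 x hx]
      good := by rw [hn', hpre1]; exact hgood.1
      ok := by
        intro j hj1 hj2
        rcases Nat.lt_or_ge j (i + 1) with h1 | h1
        · rw [hb j (by omega)]
          exact I.ok j hj1 (by omega)
        · obtain rfl : j = i + 1 := by omega
          rw [hb1]
          exact hgood.2
      ex := by
        intro h0 g hg hg'
        rw [hw1', hb1]
        rw [hb1] at hg
        rw [hpre1] at hg'
        exact a3 h0 g hg hg'
      last := by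
        intro x hx
        rw [hw1']
        rw [hpre1] at hx
        exact a2 x hx }

theorem exists_inv [CharZero K] (S : Sys D Y 𝒢 Pat Rec)
    (hGd : ∀ k l, Gd (k + 1) l → {x | ¬ Gd k (l ++ [x])}.Finite) (hG0 : Gd m []) :
    ∃ b w : ℕ → K, ∃ G ∈ 𝒢, Inv D Y Pat Gd vO m m b w G := by
  have key : ∀ i ≤ m, ∃ b w : ℕ → K, ∃ G ∈ 𝒢, Inv D Y Pat Gd vO m i b w G := by
    intro i
    induction i with
    | zero => exact fun _ => Inv.start S hGd hG0
    | succ i ih =>
      intro hi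
      obtain ⟨b, w, G, hG, I⟩ := ih (by omega)
      exact Inv.step S hGd (by omega) hG I
  exact key m le_rfl

/-- The result of the construction: generic finite sets of every size are among the sets `FF`. -/
theorem exists_coded [CharZero K] (S : Sys D Y 𝒢 Pat Rec) (m : ℕ) (Gd : ℕ → List K → Prop)
    (hGd : ∀ k l, Gd (k + 1) l → {x | ¬ Gd k (l ++ [x])}.Finite) (hG0 : Gd m []) :
    ∃ G ∈ 𝒢, ∃ c v : K, ∃ l : List K, l.length = m ∧ Gd 0 l ∧ FF D Y G c v = {x | x ∈ l} := by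
  have hv : ∀ l : List K, ∃ v, ∀ x ∈ l, x ∈ D v := by
    intro l
    have hinf : Infinite K := inferInstance
    obtain ⟨v, hv⟩ := (notSub_finite S.cof (F := {x | x ∈ l}) l.finite_toSet).exists_notMem
    refine ⟨v, fun x hx => ?_⟩
    by_contra hc
    exact hv ⟨x, hx, hc⟩
  choose vO hvO using hv
  obtain ⟨b, w, G, hG, I⟩ := exists_inv (vO := vO) S hGd hG0
  have R : Run D Y G m b w (vO (pre b m)) :=
    { b0 := I.b0
      g0 := I.g0
      g1 := I.g1
      yy := fun h v' hh hx => S.ymem G hG I.g0 I.g1 h v' hh hx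
      xx := I.xx
      nest := I.nest
      shift := I.shift
      add := I.add
      rec' := I.rec'
      king := I.king
      last := I.last }
  refine ⟨G, hG, b m, vO (pre b m), pre b m, by simp [pre], ?_, ?_⟩
  · have := I.good
    rwa [Nat.sub_self] at this
  · ext x
    constructor
    · rintro ⟨h1, h2, h3, h4⟩
      obtain ⟨i, hi, rfl⟩ := R.only S.yfin h1 h2 h3
      refine mem_pre.mpr ⟨i, ?_, hi, rfl⟩
      by_contra h0
      obtain rfl : i = 0 := by omega
      exact h4 I.b0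
    · intro hx
      obtain ⟨i, h1, h2, rfl⟩ := mem_pre.mp hx
      exact ⟨R.mem h2, hvO _ _ hx, (I.ok i h1 h2).1, (I.ok i h1 h2).2⟩

end

end Pool.Agent.Lib.MP_097535_lc.FULL
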