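import Pool.Agent.Lib.MP_097535_lc.FULL.Cons
import Pool.Agent.Lib.MP_097535_lc.NIP.Sys

/-!
# Construction of the generic finite sets: the form with the iterated cofinite filter
-/

set_option autoImplicit false

namespace Pool.Agent.Lib.MP_097535_lc.FULL

open Set Filter

variable {K : Type*} [Field K] {D Y : K → Set K} {𝒢 : Set (Set K)}
  {Pat : ℕ → K → Set K → Prop} {Rec : ℕ → K → Set K → K → Prop}

theorem exists_coded_L [CharZero K] (S : Sys D Y 𝒢 Pat Rec) (m : ℕ) (P : (Fin m → K) → Prop)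
    (hP : ∀ᶠ u in NIP.L K m, P u) :
    ∃ G ∈ 𝒢, ∃ c v : K, ∃ u : Fin m → K, P u ∧ FF D Y G c v = Set.range u := by
  let P' : List K → Prop := fun l => ∃ u : Fin m → K, List.ofFn u = l ∧ P u
  obtain ⟨G, hG, c, v, l, hl, h0, hF⟩ := exists_coded S m
    (fun k l => ∀ᶠ w in NIP.L K k, P' (l ++ List.ofFn w)) (by
      intro k l h
      rw [NIP.eventually_succ, eventually_cofinite] at h
      refine h.subset ?_
      intro x hx hcon
      apply hx
      refine hcon.mono fun w hw => ?_
      have e : l ++ List.ofFn (Fin.cons (α := fun _ => K) x w) = l ++ [x] ++ List.ofFn w := by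
        rw [List.ofFn_succ]
        simp
      rwa [e] at hw) (by
      refine hP.mono fun u hu => ?_
      exact ⟨u, by simp, hu⟩)
  rw [NIP.eventually_zero] at h0
  obtain ⟨u, hu, hPu⟩ := h0
  refine ⟨G, hG, c, v, u, hPu, ?_⟩
  rw [hF]
  ext x
  have e : l = List.ofFn u := by
    rw [hu]
    simp
  rw [e]
  simp [List.mem_ofFn]

end Pool.Agent.Lib.MP_097535_lc.FULL
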