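import Mathlib

/-!
# The explicit finite sets of the coding (definitions only)

`D y` (`y` in `K`) are finite sets, every `x` lies in `D y` for all but finitely many `y`.
-/

set_option autoImplicit false

namespace Pool.Agent.Lib.MP_097535_lc.FULL

open Set Filter

variable {K : Type*}

/-- A total relation with finite sections. -/
def Z0 (D : K → Set K) (y : K) : Set K := {x | x ∈ D y ∨ y ∉ D x ∨ x = y}

/-- Three steps of `Z0`. -/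
def X1 (D : K → Set K) (t : K) : Set K := {s | ∃ a ∈ Z0 D t, ∃ b ∈ Z0 D a, s ∈ Z0 D b}

variable [Field K]

/-- The new neighbours of `Y h` and `0`. -/
def VV (Y : K → Set K) (h : K) : Set K :=
  {v | (v - 1 ∈ Y h ∨ v - 1 = 0) ∧ ¬ (v ∈ Y h ∨ v = 0)}

def X2 (D Y : K → Set K) (b : K) : Set K :=
  {w | ∃ b' ∈ Z0 D b, b' ≠ b ∧ ∃ v, (v ∈ VV Y (b' - b) ∨ v ∈ VV Y (b - b')) ∧
    ∃ x ∈ D v, ¬ (x ∈ D w ∧ x + (b' - b) ∈ D w ∧ x + (b - b') ∈ D w)}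

def X3 (D Y : K → Set K) (b : K) : Set K := {w | ∃ b' ∈ Z0 D b, w ∈ X2 D Y b'}

def X4 (D Y : K → Set K) (b : K) : Set K :=
  {w' | ∃ w ∈ X2 D Y b, ∃ a ∈ Z0 D b, ∃ x ∈ D w, x + (b - a) ∉ D w'}

def X5 (D Y : K → Set K) (b : K) : Set K := {x | ∃ u ∈ X2 D Y b, x ∈ D u}

def X6 (D Y : K → Set K) (b : K) : Set K :=
  {w | ∃ u ∈ X2 D Y b, ∃ b' ∈ X5 D Y b, ∃ x ∈ D u, x + (b - b') ∉ D w}

def X7 (D Y : K → Set K) (b : K) : Set K := {s | ∃ b' ∈ X5 D Y b, s - b' ∈ X1 D (b - b')}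

def X8 (D Y : K → Set K) (b : K) : Set K := {w | ∃ c ∈ X7 D Y b, w ∈ X2 D Y c}

/-- The finite exceptional set. -/
def XX (D Y : K → Set K) (b : K) : Set K :=
  {w | w ∈ D b ∨ b ∉ D w ∨ w ∈ X2 D Y b ∨ w ∈ X3 D Y b ∨ w ∈ X4 D Y b ∨ w ∈ X6 D Y b ∨
    w ∈ X8 D Y b}

/-- The family of sets. -/
def SS (D Y : K → Set K) (G : Set K) (c : K) : Set K :=
  {b | ∃ w, w ∉ XX D Y b ∧ ∀ x ∈ D w, (x + (c - b) ∈ G ↔ x ∈ G)}

def Gam (D Y : K → Set K) : Set K := {y | ∃ w ∈ X2 D Y 0, w ∉ D y}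

/-- The finite sets which code: `SS` inside `D v`, without `Gam` and `0`. -/
def FF (D Y : K → Set K) (G : Set K) (c v : K) : Set K :=
  {b | b ∈ SS D Y G c ∧ b ∈ D v ∧ b ∉ Gam D Y ∧ b ≠ 0}

end Pool.Agent.Lib.MP_097535_lc.FULL
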