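import Pool.Agent.Lib.MP_097535_lc.FULL.Base

/-!
# The derivatives of the set of generically present sets are definable pattern by pattern
-/

set_option autoImplicit false

namespace Pool.Agent.Lib.MP_097535_lc.FULL

open Set Filter Pool.Agent.Lib.MP_097535_lc.NIP

/-- The members of `X` whose finite patterns recur in members of `X` at all but finitely many
distances. -/
def der {K : Type*} [AddCommGroupWithOne K] (X : Set (K → Bool)) : Set (K → Bool) :=
  {C | C ∈ X ∧ ∀ A : Finset K,
    {t | ¬ ∃ B ∈ X, ∀ a ∈ A, B a = C a ∧ B (a + t) = C a}.Finite}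

/-- The iterated derivatives of the set of the generically present sets. -/
def Tn {K : Type*} [AddCommGroupWithOne K] (D : K → K → Prop) : ℕ → Set (K → Bool)
  | 0 => TT D
  | n + 1 => der (Tn D n)

namespace Fam

variable {K : Type*} [AddCommGroupWithOne K] (F : Fam K)

/-- The finite set `D_w`. -/
noncomputable def Dw (w : K) : Finset K := (F.fin w).toFinset

theorem mem_Dw {x w : K} : x ∈ F.Dw w ↔ F.D x w := by simp [Dw]

theorem dich {P : K → Prop} (h : F.S.Def fun q : Unit → K => P (q ())) :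
    {x | P x}.Finite ∨ {x | ¬ P x}.Finite := by
  rcases F.S.min h with h1 | h1
  · right
    rwa [eventually_cofinite] at h1
  · left
    rw [eventually_cofinite] at h1
    simpa only [not_not] using h1

theorem defall {ι : Type} {P : K → (ι → K) → Prop}
    (h : F.S.Def (fun q : Option ι → K => P (q none) fun i => q (some i))) :
    F.S.Def fun p => ∀ x, P x p := F.S.all h

theorem hmin (A P : Finset K) : {t | ∃ y, ∀ a ∈ A, (F.D (t + a) y ↔ a ∈ P)}.Finite ∨
    {t | ∃ y, ∀ a ∈ A, (F.D (t + a) y ↔ a ∈ P)}ᶜ.Finite := by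
  have hne : Nonempty K := ⟨0⟩
  refine F.dich (P := fun t => ∃ y, ∀ a ∈ A, (F.D (t + a) y ↔ a ∈ P)) ?_
  apply F.S.ex (P := fun y (q : Unit → K) => ∀ a ∈ A, (F.D (q () + a) y ↔ a ∈ P))
  exact F.S.finset_all A (P := fun a (q : Option Unit → K) =>
    (F.D (q (some ()) + a) (q none) ↔ a ∈ P)) fun a =>
      F.S.iff (F.defD (F.add (F.S.var _) (F.S.const a)) (F.S.var none)) (F.S.prop (a ∈ P))

/-- Present patterns extend to generically present sets. -/
theorem TT_ext (A : Finset K) (P : K → Bool)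
    (h : ∀ᶠ s in cofinite, ∃ y, ∀ a ∈ A, (F.D (s + a) y ↔ P a = true)) :
    ∃ C ∈ TT F.D, ∀ a ∈ A, C a = P a := by
  classical
  have hinf : Infinite K := F.infinite
  have h1 : ∀ A' : Finset K, ∃ P' : K → Bool, (∀ a ∈ A, P' a = P a) ∧
      (Pat F.D (A ∪ A') P')ᶜ.Finite := by
    intro A'
    by_contra hcon
    simp only [not_exists, not_and] at hcon
    have h2 : (⋃ Q ∈ {Q : Finset K | Q ⊆ A ∪ A' ∧ ∀ a ∈ A, (a ∈ Q ↔ P a = true)},
        {t | ∃ y, ∀ a ∈ A ∪ A', (F.D (t + a) y ↔ a ∈ Q)}).Finite := by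
      refine Set.Finite.biUnion ?_ ?_
      · exact (Finset.finite_toSet (A ∪ A').powerset).subset fun Q hQ =>
          Finset.mem_coe.2 (Finset.mem_powerset.2 hQ.1)
      · rintro Q ⟨hQ1, hQ2⟩
        have h3 := hcon (fun b => decide (b ∈ Q)) (fun a ha => by
          rw [Bool.eq_iff_iff]
          simpa using hQ2 a ha)
        refine (F.hmin (A ∪ A') Q).resolve_right fun h4 => h3 ?_
        refine h4.subset ?_
        rw [compl_subset_compl]
        rintro t ⟨y, hy⟩
        exact ⟨y, fun a ha => by simpa using hy a ha⟩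
    obtain ⟨s, hs1, hs2⟩ := (h.and h2.eventually_cofinite_notMem).exists
    obtain ⟨y, hy⟩ := hs1
    apply hs2
    refine mem_biUnion (x := (A ∪ A').filter fun a => F.D (s + a) y) ?_ ?_
    · refine ⟨Finset.filter_subset _ _, fun a ha => ?_⟩
      rw [Finset.mem_filter, hy a ha]
      simp [ha]
    · exact ⟨y, fun a ha => by simp only [Finset.mem_filter, ha, true_and]⟩
  choose c hc1 hc2 using h1
  obtain ⟨C, hC⟩ := exists_limit c
  refine ⟨C, fun A1 => ?_, fun a ha => ?_⟩
  · obtain ⟨A2, hA2, hA2'⟩ := hC A1 A1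
    have h3 : Pat F.D A1 C = Pat F.D A1 (c A2) := pat_congr _ _ fun a ha => (hA2' a ha).symm
    rw [h3]
    refine (hc2 A2).subset ?_
    rw [compl_subset_compl]
    exact pat_anti _ (hA2.trans Finset.subset_union_right) _
  · obtain ⟨A2, hA2, hA2'⟩ := hC A ∅
    rw [← hA2' a ha, hc1 A2 a ha]

/-- The pattern of `D_y - t` on `D_w` is the pattern of a member of `X`. -/
def PatX (X : Set (K → Bool)) (w y t : K) : Prop :=
  ∃ C ∈ X, ∀ x, F.D x w → (C x = true ↔ F.D (t + x) y)

/-- The pattern of `D_y - t` on `D_w` is the pattern of a member of `X` both at `0` and at `s`. -/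
def RecX (X : Set (K → Bool)) (w y t s : K) : Prop :=
  ∃ B ∈ X, ∀ x, F.D x w → ((B x = true ↔ F.D (t + x) y) ∧ (B (x + s) = true ↔ F.D (t + x) y))

/-- Closed translation invariant sets in the closure of the family, with definable patterns. -/
structure Good (X : Set (K → Bool)) : Prop where
  closed : ∀ C, (∀ A : Finset K, ∃ B ∈ X, ∀ a ∈ A, B a = C a) → C ∈ X
  inv : ∀ h, ∀ B ∈ X, tr h B ∈ X
  zero : (fun _ => false) ∈ X
  one : (fun _ => true) ∈ X
  sub : X ⊆ Cl F.D
  pat : F.S.Def fun q : Fin 3 → K => F.PatX X (q 0) (q 1) (q 2)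

variable {F}

theorem approx {B : K → Bool} (hB : B ∈ Cl F.D) (A : Finset K) :
    ∃ y t, ∀ a ∈ A, sh F.D y t a = B a := by
  obtain ⟨y, t, hyt⟩ := hB A
  refine ⟨y, t, fun a ha => ?_⟩
  rw [Bool.eq_iff_iff, sh_apply]
  exact hyt a ha

theorem Good.ex_iff {X : Set (K → Bool)} (hX : F.Good X) {A : Finset K} {V : Set (K → Bool)}
    (hV : Dep A V) : (∃ B ∈ X, B ∈ V) ↔
      ∀ᶠ w in cofinite, ∃ y t, sh F.D y t ∈ V ∧ F.PatX X w y t := by
  classical
  have hinf : Infinite K := F.infinite
  constructor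
  · rintro ⟨B, hB, hBV⟩
    refine Filter.Eventually.of_forall fun w => ?_
    obtain ⟨y, t, hyt⟩ := approx (hX.sub hB) (A ∪ F.Dw w)
    refine ⟨y, t, hV _ _ (fun a ha => (hyt a (Finset.mem_union_left _ ha)).symm) hBV, B, hB, ?_⟩
    intro x hx
    rw [← hyt x (Finset.mem_union_right _ (F.mem_Dw.2 hx)), sh_apply]
  · intro h
    obtain ⟨w, hw, y, t, h1, B, hB, hBw⟩ := ((F.evDs A).and h).exists
    refine ⟨B, hB, hV _ _ (fun a ha => ?_) h1⟩
    rw [Bool.eq_iff_iff, sh_apply, hBw a (hw a ha)]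

theorem Good.defPat {X : Set (K → Bool)} (hX : F.Good X) {ι : Type} {f g k : (ι → K) → K}
    (hf : F.S.Tm f) (hg : F.S.Tm g) (hk : F.S.Tm k) :
    F.S.Def fun q => F.PatX X (f q) (g q) (k q) := by
  refine F.S.subst (P := fun q : Fin 3 → K => F.PatX X (q 0) (q 1) (q 2))
    (F := fun q => ![f q, g q, k q]) hX.pat ?_
  intro j
  fin_cases j
  · exact hf
  · exact hg
  · exact hk

theorem Good.rec_iff {X : Set (K → Bool)} (hX : F.Good X) (w y t s : K) :
    F.RecX X w y t s ↔ ∀ᶠ w' in cofinite, ∃ y' t',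
      (∀ x, F.D x w → ((F.D (t' + x) y' ↔ F.D (t + x) y) ∧
        (F.D (t' + (x + s)) y' ↔ F.D (t + x) y))) ∧ F.PatX X w' y' t' := by
  classical
  have hV : Dep (F.Dw w ∪ (F.Dw w).image fun x => x + s)
      {B | ∀ x, F.D x w → ((B x = true ↔ F.D (t + x) y) ∧
        (B (x + s) = true ↔ F.D (t + x) y))} := by
    intro B B' hBB' hB x hx
    rw [← hBB' x (Finset.mem_union_left _ (F.mem_Dw.2 hx)),
      ← hBB' (x + s) (Finset.mem_union_right _ (Finset.mem_image_of_mem _ (F.mem_Dw.2 hx)))]
    exact hB x hx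
  have := hX.ex_iff hV
  rw [RecX]
  refine this.trans ?_
  simp only [mem_ofPred_eq, sh_apply]

theorem Good.defRec4 {X : Set (K → Bool)} (hX : F.Good X) :
    F.S.Def fun q : Fin 4 → K => F.RecX X (q 0) (q 1) (q 2) (q 3) := by
  refine F.S.congr ?_ fun q => (hX.rec_iff (q 0) (q 1) (q 2) (q 3)).symm
  apply F.S.qf (P := fun w' (q : Fin 4 → K) => ∃ y' t',
      (∀ x, F.D x (q 0) → ((F.D (t' + x) y' ↔ F.D (q 2 + x) (q 1)) ∧
        (F.D (t' + (x + q 3)) y' ↔ F.D (q 2 + x) (q 1)))) ∧ F.PatX X w' y' t')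
  apply F.S.ex (P := fun y' (q : Option (Fin 4) → K) => ∃ t',
      (∀ x, F.D x (q (some 0)) → ((F.D (t' + x) y' ↔ F.D (q (some 2) + x) (q (some 1))) ∧
        (F.D (t' + (x + q (some 3))) y' ↔ F.D (q (some 2) + x) (q (some 1))))) ∧
        F.PatX X (q none) y' t')
  apply F.S.ex (P := fun t' (q : Option (Option (Fin 4)) → K) =>
      (∀ x, F.D x (q (some (some 0))) → ((F.D (t' + x) (q none) ↔
          F.D (q (some (some 2)) + x) (q (some (some 1)))) ∧
        (F.D (t' + (x + q (some (some 3)))) (q none) ↔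
          F.D (q (some (some 2)) + x) (q (some (some 1)))))) ∧
        F.PatX X (q (some none)) (q none) t')
  refine F.S.and ?_ (hX.defPat (F.S.var _) (F.S.var _) (F.S.var _))
  apply F.S.all (P := fun x (q : Option (Option (Option (Fin 4))) → K) =>
      F.D x (q (some (some (some 0)))) → ((F.D (q none + x) (q (some none)) ↔
          F.D (q (some (some (some 2))) + x) (q (some (some (some 1))))) ∧
        (F.D (q none + (x + q (some (some (some 3))))) (q (some none)) ↔
          F.D (q (some (some (some 2))) + x) (q (some (some (some 1)))))))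
  have hx : F.S.Tm fun q : Option (Option (Option (Option (Fin 4)))) → K => q none := F.S.var _
  refine F.S.imp (F.defD hx (F.S.var _)) (F.S.and (F.S.iff (F.defD (F.add (F.S.var _) hx)
    (F.S.var _)) (F.defD (F.add (F.S.var _) hx) (F.S.var _))) (F.S.iff (F.defD
    (F.add (F.S.var _) (F.add hx (F.S.var _))) (F.S.var _))
    (F.defD (F.add (F.S.var _) hx) (F.S.var _))))

theorem Good.defRec {X : Set (K → Bool)} (hX : F.Good X) {ι : Type} {f g k l : (ι → K) → K}
    (hf : F.S.Tm f) (hg : F.S.Tm g) (hk : F.S.Tm k) (hl : F.S.Tm l) :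
    F.S.Def fun q => F.RecX X (f q) (g q) (k q) (l q) := by
  refine F.S.subst (P := fun q : Fin 4 → K => F.RecX X (q 0) (q 1) (q 2) (q 3))
    (F := fun q => ![f q, g q, k q, l q]) hX.defRec4 ?_
  intro j
  fin_cases j
  · exact hf
  · exact hg
  · exact hk
  · exact hl

/-- The distances at which a finite pattern recurs in members of `X`: finite or cofinite. -/
theorem Good.dich {X : Set (K → Bool)} (hX : F.Good X) (A : Finset K) (P : K → Bool) :
    {s | ∃ B ∈ X, ∀ a ∈ A, B a = P a ∧ B (a + s) = P a}.Finite ∨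
      {s | ¬ ∃ B ∈ X, ∀ a ∈ A, B a = P a ∧ B (a + s) = P a}.Finite := by
  classical
  have hne : Nonempty K := ⟨0⟩
  refine F.dich (P := fun s => ∃ B ∈ X, ∀ a ∈ A, B a = P a ∧ B (a + s) = P a) ?_
  have h1 : ∀ s, (∃ B ∈ X, ∀ a ∈ A, B a = P a ∧ B (a + s) = P a) ↔
      ∀ᶠ w in cofinite, ∃ y t, (∀ a ∈ A, (F.D (t + a) y ↔ P a = true) ∧
        (F.D (t + (a + s)) y ↔ P a = true)) ∧ F.PatX X w y t := by
    intro s
    have hV : Dep (A ∪ A.image fun x => x + s)
        {B : K → Bool | ∀ a ∈ A, B a = P a ∧ B (a + s) = P a} := by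
      intro B B' hBB' hB x hx
      rw [← hBB' x (Finset.mem_union_left _ hx),
        ← hBB' (x + s) (Finset.mem_union_right _ (Finset.mem_image_of_mem _ hx))]
      exact hB x hx
    refine (hX.ex_iff hV).trans (Filter.eventually_congr (Filter.Eventually.of_forall fun w =>
      exists_congr fun y => exists_congr fun t => and_congr_left fun _ => ?_))
    refine forall₂_congr fun a _ => and_congr ?_ ?_
    · rw [Bool.eq_iff_iff, sh_apply]
    · rw [Bool.eq_iff_iff, sh_apply]
  refine F.S.congr ?_ fun q => (h1 (q ())).symm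
  apply F.S.qf (P := fun w (q : Unit → K) => ∃ y t, (∀ a ∈ A, (F.D (t + a) y ↔ P a = true) ∧
        (F.D (t + (a + q ())) y ↔ P a = true)) ∧ F.PatX X w y t)
  apply F.S.ex (P := fun y (q : Option Unit → K) => ∃ t,
    (∀ a ∈ A, (F.D (t + a) y ↔ P a = true) ∧
        (F.D (t + (a + q (some ()))) y ↔ P a = true)) ∧ F.PatX X (q none) y t)
  apply F.S.ex (P := fun t (q : Option (Option Unit) → K) =>
    (∀ a ∈ A, (F.D (t + a) (q none) ↔ P a = true) ∧
        (F.D (t + (a + q (some (some ())))) (q none) ↔ P a = true)) ∧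
        F.PatX X (q (some none)) (q none) t)
  refine F.S.and ?_ (hX.defPat (F.S.var _) (F.S.var _) (F.S.var _))
  refine F.S.finset_all A fun a => F.S.and ?_ ?_
  · exact F.S.iff (F.defD (F.add (F.S.var _) (F.S.const a)) (F.S.var _)) (F.S.prop _)
  · exact F.S.iff (F.defD (F.add (F.S.var _) (F.add (F.S.const a) (F.S.var _))) (F.S.var _))
      (F.S.prop _)

theorem der_sub (X : Set (K → Bool)) : der X ⊆ X := fun _ h => h.1

theorem Good.der_pat_iff {X : Set (K → Bool)} (hX : F.Good X) (w y t : K) :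
    F.PatX (der X) w y t ↔ ∀ᶠ w' in cofinite, ∃ y' t',
      (∀ x, F.D x w → (F.D (t' + x) y' ↔ F.D (t + x) y)) ∧
        ∀ᶠ s in cofinite, F.RecX X w' y' t' s := by
  classical
  have hinf : Infinite K := F.infinite
  constructor
  · rintro ⟨C, hC, hCw⟩
    refine Filter.Eventually.of_forall fun w' => ?_
    obtain ⟨y', t', hyt⟩ := approx (hX.sub hC.1) (F.Dw w ∪ F.Dw w')
    refine ⟨y', t', fun x hx => ?_, ?_⟩
    · rw [← hCw x hx, ← hyt x (Finset.mem_union_left _ (F.mem_Dw.2 hx)), sh_apply]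
    · rw [eventually_cofinite]
      refine (hC.2 (F.Dw w')).subset ?_
      intro s hs hcon
      apply hs
      obtain ⟨B, hB, hBs⟩ := hcon
      refine ⟨B, hB, fun x hx => ?_⟩
      have h1 := hBs x (F.mem_Dw.2 hx)
      rw [h1.1, h1.2, ← hyt x (Finset.mem_union_right _ (F.mem_Dw.2 hx)), sh_apply]
      exact ⟨Iff.rfl, Iff.rfl⟩
  · intro h
    have h1 : ∀ A : Finset K, ∃ w' y' t', (∀ a ∈ A, F.D a w') ∧
        (∀ x, F.D x w → (F.D (t' + x) y' ↔ F.D (t + x) y)) ∧
        ∀ᶠ s in cofinite, F.RecX X w' y' t' s := by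
      intro A
      obtain ⟨w', hw', y', t', h1, h2⟩ := ((F.evDs A).and h).exists
      exact ⟨w', y', t', hw', h1, h2⟩
    choose w' y' t' ha hb hc using h1
    obtain ⟨C, hC⟩ := exists_limit fun A => sh F.D (y' A) (t' A)
    refine ⟨C, ⟨hX.closed C fun A => ?_, fun A => ?_⟩, fun x hx => ?_⟩
    · obtain ⟨A', hA', hA''⟩ := hC A A
      obtain ⟨s, B, hB, hBs⟩ := (hc A').exists
      refine ⟨B, hB, fun a ha' => ?_⟩
      rw [← hA'' a ha', Bool.eq_iff_iff, sh_apply]
      exact (hBs a (ha A' a (hA' ha'))).1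
    · obtain ⟨A', hA', hA''⟩ := hC A A
      have h2 := hc A'
      rw [eventually_cofinite] at h2
      refine h2.subset ?_
      intro s hs hcon
      apply hs
      obtain ⟨B, hB, hBs⟩ := hcon
      refine ⟨B, hB, fun a ha' => ?_⟩
      have h3 := hBs a (ha A' a (hA' ha'))
      rw [← hA'' a ha']
      exact ⟨Bool.eq_iff_iff.2 (h3.1.trans (sh_apply _ _ _ _).symm),
        Bool.eq_iff_iff.2 (h3.2.trans (sh_apply _ _ _ _).symm)⟩
    · obtain ⟨A', -, hA''⟩ := hC (F.Dw w) ∅
      rw [← hA'' x (F.mem_Dw.2 hx), sh_apply]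
      exact hb A' x hx

/-- The derivative of a good set is good. -/
theorem Good.der {X : Set (K → Bool)} (hX : F.Good X) : F.Good (der X) where
  closed := by
    intro C hC
    refine ⟨hX.closed C fun A => ?_, fun A => ?_⟩
    · obtain ⟨B, hB, hBC⟩ := hC A
      exact ⟨B, hB.1, hBC⟩
    · obtain ⟨B, hB, hBC⟩ := hC A
      refine (hB.2 A).subset ?_
      intro s hs hcon
      apply hs
      obtain ⟨B', hB', hBs⟩ := hcon
      refine ⟨B', hB', fun a ha => ?_⟩
      rw [← hBC a ha]
      exact hBs a ha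
  inv := by
    classical
    intro h C hC
    refine ⟨hX.inv h C hC.1, fun A => ?_⟩
    refine (hC.2 (A.image fun a => a + h)).subset ?_
    intro s hs hcon
    apply hs
    obtain ⟨B, hB, hBs⟩ := hcon
    refine ⟨tr h B, hX.inv h B hB, fun a ha => ?_⟩
    have h1 := hBs (a + h) (Finset.mem_image_of_mem _ ha)
    refine ⟨h1.1, ?_⟩
    have h2 : a + s + h = a + h + s := by abel
    simp only [tr]
    rw [h2]
    exact h1.2
  zero := ⟨hX.zero, fun A => by
    convert Set.finite_empty
    rw [eq_empty_iff_forall_notMem]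
    intro s hs
    exact hs ⟨_, hX.zero, fun a _ => ⟨rfl, rfl⟩⟩⟩
  one := ⟨hX.one, fun A => by
    convert Set.finite_empty
    rw [eq_empty_iff_forall_notMem]
    intro s hs
    exact hs ⟨_, hX.one, fun a _ => ⟨rfl, rfl⟩⟩⟩
  sub := fun C hC => hX.sub hC.1
  pat := by
    refine F.S.congr ?_ fun q => (hX.der_pat_iff (q 0) (q 1) (q 2)).symm
    apply F.S.qf (P := fun w' (q : Fin 3 → K) => ∃ y' t',
      (∀ x, F.D x (q 0) → (F.D (t' + x) y' ↔ F.D (q 2 + x) (q 1))) ∧
        ∀ᶠ s in cofinite, F.RecX X w' y' t' s)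
    apply F.S.ex (P := fun y' (q : Option (Fin 3) → K) => ∃ t',
      (∀ x, F.D x (q (some 0)) → (F.D (t' + x) y' ↔ F.D (q (some 2) + x) (q (some 1)))) ∧
        ∀ᶠ s in cofinite, F.RecX X (q none) y' t' s)
    apply F.S.ex (P := fun t' (q : Option (Option (Fin 3)) → K) =>
      (∀ x, F.D x (q (some (some 0))) → (F.D (t' + x) (q none) ↔
        F.D (q (some (some 2)) + x) (q (some (some 1))))) ∧
        ∀ᶠ s in cofinite, F.RecX X (q (some none)) (q none) t' s)
    refine F.S.and ?_ ?_
    · apply F.S.all (P := fun x (q : Option (Option (Option (Fin 3))) → K) =>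
        F.D x (q (some (some (some 0)))) → (F.D (q none + x) (q (some none)) ↔
        F.D (q (some (some (some 2))) + x) (q (some (some (some 1))))))
      have hx : F.S.Tm fun q : Option (Option (Option (Option (Fin 3)))) → K => q none :=
        F.S.var _
      exact F.S.imp (F.defD hx (F.S.var _)) (F.S.iff (F.defD (F.add (F.S.var _) hx)
        (F.S.var _)) (F.defD (F.add (F.S.var _) hx) (F.S.var _)))
    · apply F.S.qf (P := fun s (q : Option (Option (Option (Fin 3))) → K) =>
        F.RecX X (q (some (some none))) (q (some none)) (q none) s)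
      exact hX.defRec (F.S.var _) (F.S.var _) (F.S.var _) (F.S.var _)

/-- The set of the generically present sets is good. -/
theorem good_TT : F.Good (TT F.D) where
  closed := by
    intro C hC A
    obtain ⟨B, hB, hBC⟩ := hC A
    rw [← pat_congr F.D A hBC]
    exact hB A
  inv := by
    classical
    intro h B hB A
    have h1 := hB (A.image fun a => a + h)
    have h2 : (Pat F.D A (tr h B))ᶜ =
        (fun t : K => t - h) ⁻¹' (Pat F.D (A.image fun a => a + h) B)ᶜ := by
      ext t
      simp only [mem_compl_iff, mem_preimage, not_iff_not, Pat, mem_ofPred_eq, tr,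
        Finset.mem_image, forall_exists_index, and_imp, forall_apply_eq_imp_iff₂]
      have h3 : ∀ a : K, t - h + (a + h) = t + a := fun a => by abel
      simp only [h3]
    rw [h2]
    exact h1.preimage (fun s _ t _ h => sub_left_injective h)
  zero := by
    classical
    intro A
    have h1 : (⋃ a ∈ (A : Set K), {t | F.D (t + a) 0}).Finite :=
      Set.Finite.biUnion A.finite_toSet fun a _ =>
        (F.fin 0).preimage (f := fun t => t + a) (fun s _ t _ h => add_right_cancel h)
    refine h1.subset ?_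
    intro t ht
    by_contra hcon
    refine ht ⟨0, fun a ha => ?_⟩
    simp only [Bool.false_eq_true, iff_false]
    exact fun h => hcon (mem_biUnion (Finset.mem_coe.2 ha) h)
  one := by
    have hinf : Infinite K := F.infinite
    intro A
    have h1 : (Pat F.D A fun _ => true)ᶜ = ∅ := by
      rw [compl_empty_iff, eq_univ_iff_forall]
      intro t
      obtain ⟨y, hy⟩ := (Filter.eventually_all_finset A |>.2 fun a _ => F.evD (t + a)).exists
      exact ⟨y, fun a ha => by simpa using hy a ha⟩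
    rw [h1]
    exact finite_empty
  sub := by
    have hinf : Infinite K := F.infinite
    exact TT_sub_Cl
  pat := by
    have hinf : Infinite K := F.infinite
    have h1 : ∀ w y t, F.PatX (TT F.D) w y t ↔
        ∀ᶠ s in cofinite, ∃ y', ∀ x, F.D x w → (F.D (s + x) y' ↔ F.D (t + x) y) := by
      intro w y t
      constructor
      · rintro ⟨C, hC, hCw⟩
        rw [eventually_cofinite]
        refine (hC (F.Dw w)).subset ?_
        intro s hs hcon
        apply hs
        obtain ⟨y', hy'⟩ := hcon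
        refine ⟨y', fun x hx => ?_⟩
        rw [hy' x (F.mem_Dw.2 hx), hCw x hx]
      · intro h
        obtain ⟨C, hC, hCw⟩ := F.TT_ext (F.Dw w) (sh F.D y t) (h.mono fun s hs => by
          obtain ⟨y', hy'⟩ := hs
          exact ⟨y', fun a ha => by rw [sh_apply]; exact hy' a (F.mem_Dw.1 ha)⟩)
        refine ⟨C, hC, fun x hx => ?_⟩
        rw [hCw x (F.mem_Dw.2 hx), sh_apply]
    refine F.S.congr ?_ fun q => (h1 (q 0) (q 1) (q 2)).symm
    apply F.S.qf (P := fun s (q : Fin 3 → K) =>
      ∃ y', ∀ x, F.D x (q 0) → (F.D (s + x) y' ↔ F.D (q 2 + x) (q 1)))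
    apply F.S.ex (P := fun y' (q : Option (Fin 3) → K) =>
      ∀ x, F.D x (q (some 0)) → (F.D (q none + x) y' ↔ F.D (q (some 2) + x) (q (some 1))))
    apply F.S.all (P := fun x (q : Option (Option (Fin 3)) → K) =>
      F.D x (q (some (some 0))) → (F.D (q (some none) + x) (q none) ↔
        F.D (q (some (some 2)) + x) (q (some (some 1)))))
    have hx : F.S.Tm fun q : Option (Option (Option (Fin 3))) → K => q none := F.S.var _
    exact F.S.imp (F.defD hx (F.S.var _)) (F.S.iff (F.defD (F.add (F.S.var _) hx)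
      (F.S.var _)) (F.defD (F.add (F.S.var _) hx) (F.S.var _)))

/-- All derivatives are good. -/
theorem good_Tn (n : ℕ) : F.Good (Tn F.D n) := by
  induction n with
  | zero => exact good_TT
  | succ n ih => exact ih.der

end Fam

end Pool.Agent.Lib.MP_097535_lc.FULL
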