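import Pool.Agent.Lib.MP_097535_lc.NIP.Asym

/-!
# The induction lemma and its consequences

Let `D_y` be a definable family of finite sets covering every element for all but finitely many
parameters in an abelian group with a minimal system of definable predicates. Limits of definable
sets which are closed under a translation up to finitely many points and contain a progression are
cofinite.
-/

set_option autoImplicit false

namespace Pool.Agent.Lib.MP_097535_lc.FULL

open Set Filter Pool.Agent.Lib.MP_097535_lc.NIP

variable {K : Type*}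

section Tools

/-- Substitution in a ternary relation. -/
theorem sub3 (S : DefSys K) {ι : Type} {V : K → K → K → Prop}
    (hV : S.Def fun q : Fin 3 → K => V (q 0) (q 1) (q 2))
    {f g h : (ι → K) → K} (hf : S.Tm f) (hg : S.Tm g) (hh : S.Tm h) :
    S.Def fun q => V (f q) (g q) (h q) := by
  refine S.subst (P := fun q : Fin 3 → K => V (q 0) (q 1) (q 2))
    (F := fun q => ![f q, g q, h q]) hV ?_
  intro j
  fin_cases j
  · exact hf
  · exact hg
  · exact hh

theorem def_notMem (S : DefSys K) [Nonempty K] {ι : Type} {E : Set K} (hE : E.Finite)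
    {f : (ι → K) → K} (hf : S.Tm f) : S.Def fun q => f q ∉ E :=
  S.congr (S.finset_all hE.toFinset (P := fun a q => ¬ f q = a) fun a =>
    S.not (S.eq hf (S.const a))) fun q => by
      constructor
      · intro h hq
        exact h _ (hE.mem_toFinset.2 hq) rfl
      · rintro h a ha rfl
        exact h (hE.mem_toFinset.1 ha)

theorem nsmul_inj [AddCommGroup K] {h : K} (hh : ∀ n : ℕ, n ≠ 0 → n • h ≠ 0) :
    Function.Injective fun n : ℕ => n • h := by
  have key : ∀ m n : ℕ, m < n → m • h ≠ n • h := by
    intro m n hmn he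
    have h1 : (n - m) • h = 0 := by
      have h2 : n • h = m • h + (n - m) • h := by
        rw [← add_nsmul]
        congr 1
        omega
      rw [← he] at h2
      have h3 : m • h + 0 = m • h + (n - m) • h := by rw [add_zero]; exact h2
      exact (add_left_cancel h3).symm
    exact hh (n - m) (by omega) h1
  intro m n he
  rcases lt_trichotomy m n with h1 | h1 | h1
  · exact absurd he (key m n h1)
  · exact h1
  · exact absurd he.symm (key n m h1)

/-- Compactness for families indexed by finite sets. -/
theorem compact_fin {P : Finset K → Set (K → Bool)} (hcl : ∀ F, IsClosed (P F))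
    (hanti : ∀ F F', F ⊆ F' → P F' ⊆ P F) (hne : ∀ F, (P F).Nonempty) :
    ∃ C, ∀ F, C ∈ P F := by
  classical
  by_contra hcon
  have hE : (univ : Set (K → Bool)) ∩ ⋂ F, P F = ∅ := by
    rw [eq_empty_iff_forall_notMem]
    rintro C ⟨-, hC⟩
    exact hcon ⟨C, mem_iInter.1 hC⟩
  obtain ⟨F, hF⟩ := isCompact_univ.elim_directed_family_closed P hcl hE (by
    intro F1 F2
    exact ⟨F1 ∪ F2, hanti _ _ Finset.subset_union_left, hanti _ _ Finset.subset_union_right⟩)
  obtain ⟨C, hC⟩ := hne F
  exact (eq_empty_iff_forall_notMem.1 hF C) ⟨mem_univ _, hC⟩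

end Tools

variable [AddCommGroupWithOne K]

/-- Translation by `x`. -/
def tr (x : K) (B : K → Bool) : K → Bool := fun a => B (a + x)

theorem tr_zero (B : K → Bool) : tr 0 B = B := by
  funext b; simp [tr]

theorem tr_tr (x y : K) (B : K → Bool) : tr x (tr y B) = tr (x + y) B := by
  funext b; simp [tr, add_assoc]

theorem tr_const (x : K) (c : Bool) : tr x (fun _ : K => c) = fun _ => c := rfl

theorem act_eq_tr (n : ℤ) (B : K → Bool) : act n B = tr (n : K) B := rfl

theorem continuous_tr (x : K) : Continuous (tr x : (K → Bool) → K → Bool) :=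
  continuous_pi fun b => continuous_apply (b + x)

/-- The closure of the family of the translates of the `D_y`. -/
def Cl (D : K → K → Prop) : Set (K → Bool) :=
  {C | ∀ A : Finset K, ∃ y t, ∀ a ∈ A, (D (t + a) y ↔ C a = true)}

section EI

variable (S : DefSys K)
  (hadd : ∀ (ι : Type) (f g : (ι → K) → K), S.Tm f → S.Tm g → S.Tm fun p => f p + g p)
  {D : K → K → Prop} (hD : S.Def fun q : Fin 2 → K => D (q 0) (q 1))
  (hfin : ∀ y, {x | D x y}.Finite) (hcof : ∀ x, {y | ¬ D x y}.Finite)

include hadd hD hfin hcof

/-- **The induction lemma.** -/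
theorem ei {V : K → K → K → Prop} (hV : S.Def fun q : Fin 3 → K => V (q 0) (q 1) (q 2))
    {U : Set K} (hU : ∀ F : Finset K, ∃ y t, ∀ x ∈ F, (V x y t ↔ x ∈ U))
    {x0 h : K} (hh : ∀ n : ℕ, n ≠ 0 → n • h ≠ 0) (h0 : ∀ n : ℕ, x0 + n • h ∈ U)
    (hE : {x | x ∈ U ∧ x + h ∉ U}.Finite) : {x | x ∉ U}.Finite := by
  classical
  have hne : Nonempty K := ⟨0⟩
  set E : Set K := {x | x ∈ U ∧ x + h ∉ U} with hEdef
  let N0 : K → Prop := fun x => ∀ᶠ w in cofinite, ∀ y t,
    (V x0 y t ∧ ∀ u, D u w → u ∉ E → V u y t → V (u + h) y t) → D x w → V x y t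
  have hN0 : S.Def fun q : Unit → K => N0 (q ()) := by
    apply S.qf (P := fun w (q : Unit → K) => ∀ y t,
      (V x0 y t ∧ ∀ u, D u w → u ∉ E → V u y t → V (u + h) y t) → D (q ()) w → V (q ()) y t)
    apply S.all (P := fun y (q : Option Unit → K) => ∀ t,
      (V x0 y t ∧ ∀ u, D u (q none) → u ∉ E → V u y t → V (u + h) y t) →
        D (q (some ())) (q none) → V (q (some ())) y t)
    apply S.all (P := fun t (q : Option (Option Unit) → K) =>
      (V x0 (q none) t ∧ ∀ u, D u (q (some none)) → u ∉ E → V u (q none) t →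
        V (u + h) (q none) t) → D (q (some (some ()))) (q (some none)) →
        V (q (some (some ()))) (q none) t)
    refine S.imp (S.and (sub3 S hV (S.const x0) (S.var _) (S.var _)) ?_)
      (S.imp (S.sub2 hD (S.var _) (S.var _)) (sub3 S hV (S.var _) (S.var _) (S.var _)))
    apply S.all (P := fun u (q : Option (Option (Option Unit)) → K) =>
      D u (q (some (some none))) → u ∉ E → V u (q (some none)) (q none) →
        V (u + h) (q (some none)) (q none))
    exact S.imp (S.sub2 hD (S.var _) (S.var _)) (S.imp (def_notMem S hE (S.var _))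
      (S.imp (sub3 S hV (S.var _) (S.var _) (S.var _))
        (sub3 S hV (hadd _ _ _ (S.var _) (S.const h)) (S.var _) (S.var _))))
  have hin : ∀ n : ℕ, N0 (x0 + n • h) := by
    intro n
    have h1 : ∀ᶠ w in cofinite, ∀ k ∈ Finset.range (n + 1), D (x0 + k • h) w := by
      rw [Filter.eventually_all_finset]
      intro k _
      rw [eventually_cofinite]
      exact hcof _
    filter_upwards [h1] with w hw y t hyt _
    have h2 : ∀ k ≤ n, V (x0 + k • h) y t := by
      intro k
      induction k with
      | zero =>
        intro _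
        simpa using hyt.1
      | succ k ih =>
        intro hk
        have h3 := hyt.2 (x0 + k • h) (hw k (Finset.mem_range.2 (by omega)))
          (by
            rintro ⟨-, h4⟩
            apply h4
            have h5 := h0 (k + 1)
            rwa [succ_nsmul, ← add_assoc] at h5) (ih (by omega))
        rwa [succ_nsmul, ← add_assoc]
    exact h2 n le_rfl
  have hout : ∀ x, N0 x → x ∈ U := by
    intro x hx
    have h1 : ∀ᶠ w in cofinite, D x w := by
      rw [eventually_cofinite]
      exact hcof _
    have hinf : Infinite K := Infinite.of_injective _ (nsmul_inj hh)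
    obtain ⟨w, hw, hxw⟩ := (hx.and h1).exists
    obtain ⟨y, t, hyt⟩ := hU (insert x0 ((hfin w).toFinset ∪ (hfin w).toFinset.image (· + h)))
    have hx0 : V x0 y t := (hyt x0 (Finset.mem_insert_self _ _)).2 (by simpa using h0 0)
    have h2 : ∀ u, D u w → (V u y t ↔ u ∈ U) := fun u hu =>
      hyt u (Finset.mem_insert_of_mem (Finset.mem_union_left _ ((hfin w).mem_toFinset.2 hu)))
    have h3 : ∀ u, D u w → (V (u + h) y t ↔ u + h ∈ U) := fun u hu =>
      hyt _ (Finset.mem_insert_of_mem (Finset.mem_union_right _
        (Finset.mem_image_of_mem _ ((hfin w).mem_toFinset.2 hu))))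
    have h4 := hw y t ⟨hx0, fun u hu huE huV => by
      rw [h3 u hu]
      by_contra hcon
      exact huE ⟨(h2 u hu).1 huV, hcon⟩⟩ hxw
    exact (h2 x hxw).1 h4
  rcases S.min hN0 with h1 | h1
  · rw [eventually_cofinite] at h1
    refine h1.subset ?_
    intro x hx hcon
    exact hx (hout x hcon)
  · rw [eventually_cofinite] at h1
    simp only [not_not] at h1
    exfalso
    refine Set.infinite_of_injective_forall_mem (f := fun n : ℕ => x0 + n • h) ?_ hin h1
    intro m n hmn
    exact nsmul_inj hh (add_left_cancel hmn)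

/-- (1a) Periodic limits of the family are constant. -/
theorem per_const {C : K → Bool} (hC : C ∈ Cl D) {h : K} (hh : ∀ n : ℕ, n ≠ 0 → n • h ≠ 0)
    (hp : ∀ a, C (a + h) = C a) : C = (fun _ => false) ∨ C = fun _ => true := by
  by_cases h0 : ∃ x0, C x0 = true
  · right
    obtain ⟨x0, hx0⟩ := h0
    have hn : ∀ (x : K) (n : ℕ), C (x + n • h) = C x := by
      intro x n
      induction n with
      | zero => simp
      | succ n ih => rw [succ_nsmul, ← add_assoc, hp, ih]
    have hV : S.Def fun q : Fin 3 → K => D (q 2 + q 0) (q 1) :=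
      S.sub2 hD (hadd _ _ _ (S.var _) (S.var _)) (S.var _)
    have h1 := ei S hadd hD hfin hcof (V := fun x y t => D (t + x) y) hV (U := {x | C x = true})
      (by
        intro F
        obtain ⟨y, t, hyt⟩ := hC F
        exact ⟨y, t, hyt⟩) (x0 := x0) hh
      (by
        intro n
        simp only [mem_ofPred_eq]
        rw [hn, hx0])
      (by
        have : {x | x ∈ {x | C x = true} ∧ x + h ∉ {x | C x = true}} = ∅ := by
          rw [eq_empty_iff_forall_notMem]
          rintro x ⟨h1, h2⟩
          simp only [mem_ofPred_eq] at h1 h2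
          rw [hp] at h2
          exact h2 h1
        rw [this]
        exact finite_empty)
    funext x1
    by_contra hcon
    refine Set.infinite_of_injective_forall_mem (f := fun n : ℕ => x1 + n • h) ?_ ?_ h1
    · intro m n hmn
      exact nsmul_inj hh (add_left_cancel hmn)
    · intro n
      simp only [mem_ofPred_eq]
      rw [hn]
      exact hcon
  · left
    funext x
    by_contra hcon
    exact h0 ⟨x, by simpa using hcon⟩

omit hadd hD hfin hcof in
theorem one_nsmul_ne [CharZero K] (n : ℕ) (hn : n ≠ 0) : n • (1 : K) ≠ 0 := by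
  rw [nsmul_one]
  exact_mod_cast hn

omit hadd hD hfin hcof in
/-- There is an element outside finitely many cosets of the integers. -/
theorem exists_notMem_cosets
    (hKZ : ∀ n : ℕ, ∃ r : Fin n → K, ∀ i j, i ≠ j → ∀ m : ℤ, r i - r j ≠ (m : K))
    {E : Set K} (hE : E.Finite) : ∃ x1, ∀ e ∈ E, ∀ m : ℤ, x1 ≠ e + (m : K) := by
  classical
  obtain ⟨r, hr⟩ := hKZ (hE.toFinset.card + 1)
  by_contra hcon
  push Not at hcon
  choose f hf using fun i => hcon (r i)
  obtain ⟨i, j, hij, he⟩ : ∃ i j, i ≠ j ∧ f i = f j := by
    have hc : Fintype.card hE.toFinset < Fintype.card (Fin (hE.toFinset.card + 1)) := by simp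
    obtain ⟨i, j, hij, he⟩ := Fintype.exists_ne_map_eq_of_card_lt
      (fun i => (⟨f i, hE.mem_toFinset.2 (hf i).1⟩ : hE.toFinset)) hc
    exact ⟨i, j, hij, by simpa using congrArg Subtype.val he⟩
  obtain ⟨-, m1, h1⟩ := hf i
  obtain ⟨-, m2, h2⟩ := hf j
  refine hr i j hij (m1 - m2) ?_
  rw [h1, h2, he]
  push_cast
  abel

/-- (1b) An infinite and coinfinite limit is left infinitely often. -/
theorem exits_infinite [CharZero K]
    (hKZ : ∀ n : ℕ, ∃ r : Fin n → K, ∀ i j, i ≠ j → ∀ m : ℤ, r i - r j ≠ (m : K))
    {B : K → Bool} (hB : B ∈ Cl D) (hi : {b | B b = true}.Infinite)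
    (hco : {b | B b = false}.Infinite) : {u | B u = true ∧ B (u + 1) = false}.Infinite := by
  intro hE
  have hV : S.Def fun q : Fin 3 → K => D (q 2 + q 0) (q 1) :=
    S.sub2 hD (hadd _ _ _ (S.var _) (S.var _)) (S.var _)
  by_cases hx : ∃ x0, ∀ n : ℕ, B (x0 + n • (1 : K)) = true
  · obtain ⟨x0, hx0⟩ := hx
    have h1 := ei S hadd hD hfin hcof (V := fun x y t => D (t + x) y) hV (U := {x | B x = true})
      (fun F => hB F) (x0 := x0) one_nsmul_ne (fun n => hx0 n)
      (by
        refine hE.subset ?_
        rintro x ⟨h1, h2⟩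
        simp only [mem_ofPred_eq] at h1 h2 ⊢
        exact ⟨h1, by simpa using h2⟩)
    refine hco (h1.subset ?_)
    intro x hx
    simp only [mem_ofPred_eq] at hx ⊢
    simp [hx]
  · push Not at hx
    obtain ⟨x1, hx1⟩ := exists_notMem_cosets hKZ hE
    -- every element of `B` is below an exit
    have hbelow : ∀ x, B x = true → ∃ n : ℕ, B (x + (n : K)) = true ∧ B (x + (n : K) + 1) = false := by
      intro x hBx
      by_contra hcon
      push Not at hcon
      obtain ⟨n, hn⟩ := hx x
      apply hn
      have hall : ∀ n : ℕ, B (x + (n : K)) = true := by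
        intro n
        induction n with
        | zero => simpa using hBx
        | succ n ih =>
          have := hcon n ih
          rw [Nat.cast_succ, ← add_assoc]
          simpa using this
      rw [nsmul_one]
      exact hall n
    have hdisj : ∀ m : ℤ, B (x1 + (m : K)) = false := by
      intro m
      by_contra hcon
      have hcon' : B (x1 + (m : K)) = true := by simpa using hcon
      obtain ⟨n, hn1, hn2⟩ := hbelow _ hcon'
      refine hx1 _ ⟨hn1, hn2⟩ (-(m + n)) ?_
      push_cast
      abel
    have h1 := ei S hadd hD hfin hcof (V := fun x y t => ¬ D (t + x) y) (S.not hV)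
      (U := {x | B x = false})
      (by
        intro F
        obtain ⟨y, t, hyt⟩ := hB F
        refine ⟨y, t, fun x hx => ?_⟩
        rw [hyt x hx]
        simp) (x0 := x1) (h := -1)
      (by
        intro n hn h
        apply one_nsmul_ne (K := K) n hn
        rw [smul_neg] at h
        exact neg_eq_zero.1 h)
      (by
        intro n
        have := hdisj (-(n : ℤ))
        simp only [mem_ofPred_eq]
        have h2 : x1 + n • (-1 : K) = x1 + ((-(n : ℤ) : ℤ) : K) := by
          push_cast
          rw [smul_neg, nsmul_one]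
        rw [h2]
        exact this)
      (by
        have hinj : Function.Injective fun u : K => u + 1 := fun a b h => add_right_cancel h
        refine (hE.image fun u : K => u + 1).subset ?_
        rintro x ⟨h1, h2⟩
        simp only [mem_ofPred_eq] at h1 h2
        refine ⟨x + -1, ⟨by simpa using h2, ?_⟩, ?_⟩
        · have : x + -1 + 1 = x := by abel
          rw [this]
          exact h1
        · simp only
          abel)
    refine hi (h1.subset ?_)
    intro x hx
    simp only [mem_ofPred_eq] at hx ⊢
    simp [hx]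

/-- (1c) -/
theorem Y_finite {h : K} (hh : ∀ n : ℕ, n ≠ 0 → n • h ≠ 0) :
    {w | ∃ y t, D t y ∧ ¬ D (t + 1) y ∧ ∀ x, D x w → (D (t + (x + h)) y ↔ D (t + x) y)}.Finite := by
  classical
  have hY : S.Def fun q : Unit → K => ∃ y t, D t y ∧ ¬ D (t + 1) y ∧
      ∀ x, D x (q ()) → (D (t + (x + h)) y ↔ D (t + x) y) := by
    apply S.ex (P := fun y (q : Unit → K) => ∃ t, D t y ∧ ¬ D (t + 1) y ∧
      ∀ x, D x (q ()) → (D (t + (x + h)) y ↔ D (t + x) y))
    apply S.ex (P := fun t (q : Option Unit → K) => D t (q none) ∧ ¬ D (t + 1) (q none) ∧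
      ∀ x, D x (q (some ())) → (D (t + (x + h)) (q none) ↔ D (t + x) (q none)))
    refine S.and (S.sub2 hD (S.var _) (S.var _))
      (S.and (S.not (S.sub2 hD (hadd _ _ _ (S.var _) (S.const 1)) (S.var _))) ?_)
    apply S.all (P := fun x (q : Option (Option Unit) → K) => D x (q (some (some ()))) →
      (D (q none + (x + h)) (q (some none)) ↔ D (q none + x) (q (some none))))
    exact S.imp (S.sub2 hD (S.var _) (S.var _)) (S.iff
      (S.sub2 hD (hadd _ _ _ (S.var _) (hadd _ _ _ (S.var _) (S.const h))) (S.var _))
      (S.sub2 hD (hadd _ _ _ (S.var _) (S.var _)) (S.var _)))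
  have hinf : Infinite K := Infinite.of_injective _ (nsmul_inj hh)
  rcases S.min hY with h1 | h1
  · exfalso
    -- compactness
    obtain ⟨C, hC⟩ := compact_fin (K := K) (P := fun F => {C | C 0 = true ∧ C 1 = false ∧
      (∀ x ∈ F, C (x + h) = C x) ∧ ∃ y t, ∀ a ∈ F, (D (t + a) y ↔ C a = true)})
      (by
        intro F
        refine (isClopen_of_dep (insert 0 (insert 1 (F ∪ F.image (· + h)))) _ ?_).isClosed
        rintro B B' hBB' ⟨hB0, hB1, hB2, y, t, hB3⟩
        have e0 := hBB' 0 (Finset.mem_insert_self _ _)
        have e1 := hBB' 1 (Finset.mem_insert_of_mem (Finset.mem_insert_self _ _))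
        have e2 : ∀ x ∈ F, B x = B' x := fun x hx => hBB' x
          (Finset.mem_insert_of_mem (Finset.mem_insert_of_mem (Finset.mem_union_left _ hx)))
        have e3 : ∀ x ∈ F, B (x + h) = B' (x + h) := fun x hx => hBB' _
          (Finset.mem_insert_of_mem (Finset.mem_insert_of_mem (Finset.mem_union_right _
            (Finset.mem_image_of_mem _ hx))))
        refine ⟨e0 ▸ hB0, e1 ▸ hB1, fun x hx => ?_, y, t, fun a ha => ?_⟩
        · rw [← e3 x hx, ← e2 x hx]
          exact hB2 x hx
        · rw [← e2 a ha]
          exact hB3 a ha)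
      (by
        rintro F F' hFF' C ⟨h2, h3, h4, y, t, h5⟩
        exact ⟨h2, h3, fun x hx => h4 x (hFF' hx), y, t, fun a ha => h5 a (hFF' ha)⟩)
      (by
        intro F
        have h2 : ∀ᶠ w in cofinite, ∀ x ∈ F, D x w := by
          rw [Filter.eventually_all_finset]
          intro x _
          rw [eventually_cofinite]
          exact hcof _
        obtain ⟨w, ⟨y, t, hy1, hy2, hy3⟩, hw⟩ := (h1.and h2).exists
        refine ⟨sh D y t, ?_, ?_, ?_, y, t, fun a _ => (sh_apply D y t a).symm⟩
        · rw [sh_apply, add_zero]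
          exact hy1
        · rw [← Bool.not_eq_true, sh_apply]
          exact hy2
        · intro x hx
          have h3 := hy3 x (hw x hx)
          rw [Bool.eq_iff_iff, sh_apply, sh_apply]
          exact h3)
    have hCcl : C ∈ Cl D := fun A => (hC A).2.2.2
    have hCp : ∀ a, C (a + h) = C a := fun a => (hC {a}).2.2.1 a (Finset.mem_singleton_self _)
    have hC0 := (hC ∅).1
    have hC1 := (hC ∅).2.1
    rcases per_const S hadd hD hfin hcof hCcl hh hCp with h2 | h2
    · rw [h2] at hC0
      simp at hC0
    · rw [h2] at hC1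
      simp at hC1
  · rw [eventually_cofinite] at h1
    simpa only [not_not] using h1

end EI

end Pool.Agent.Lib.MP_097535_lc.FULL
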