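import Pool.Agent.Lib.MP_097535_lc.FULL.Conn
import Pool.Agent.Lib.MP_097535_lc.FULL.ConsL

/-!
# The system of the construction, from the derivatives
-/

set_option autoImplicit false

namespace Pool.Agent.Lib.MP_097535_lc.FULL

open Set Filter Pool.Agent.Lib.MP_097535_lc.NIP

namespace Fam

variable {K : Type*} [Field K] [CharZero K] (F : Fam K)

/-- The sets `D_y`. -/
def DD (y : K) : Set K := {x | F.D x y}

/-- The set `D_y - t`. -/
def GG (y t : K) : Set K := {x | F.D (t + x) y}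

/-- The windows on which some member containing `0`, not `1`, looks `h`-periodic. -/
def YY (h : K) : Set K :=
  {w | ∃ y t, F.D t y ∧ ¬ F.D (t + 1) y ∧ ∀ x, F.D x w → (F.D (t + (x + h)) y ↔ F.D (t + x) y)}

/-- The family of all `D_y - t`. -/
def GF : Set (Set K) := {G | ∃ y t, G = F.GG y t}

def Pn (n : ℕ) (w : K) (G : Set K) : Prop := ∃ C ∈ Tn F.D n, ∀ x, F.D x w → (C x = true ↔ x ∈ G)

def Rn (n : ℕ) (w : K) (G : Set K) (t : K) : Prop :=
  ∃ C ∈ Tn F.D n, ∀ x, F.D x w → ((C x = true ↔ x ∈ G) ∧ (C (x + t) = true ↔ x ∈ G))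

/-- The derivatives give the hypotheses of the construction. -/
theorem sys :
    Sys F.DD F.YY F.GF F.Pn F.Rn where
  fin := F.fin
  cof := F.cof
  yfin := fun h hh => Y_finite F.S (fun _ _ _ hf hg => F.add hf hg) F.dD F.fin F.cof (F.tf h hh)
  ymem := by
    rintro G ⟨y, t, rfl⟩ h0 h1 h w hh hx
    refine ⟨y, t, by simpa [GG] using h0, h1, fun x hxw => hx x hxw⟩
  pat := by
    rintro n w G - ⟨C, hC, hCw⟩
    refine (hC.2 (F.Dw w)).subset ?_
    intro t ht hcon
    apply ht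
    obtain ⟨B, hB, hBt⟩ := hcon
    refine ⟨B, hB, fun x hx => ?_⟩
    have h1 := hBt x (F.mem_Dw.2 hx)
    rw [h1.1, h1.2]
    exact ⟨hCw x hx, hCw x hx⟩
  rec1 := by
    classical
    rintro n w G - t ⟨B, hB, hBt⟩
    have h1 : {w' | ¬ ∃ G' ∈ F.GF, (∀ x ∈ F.DD w, (x ∈ G' ↔ x ∈ G)) ∧
        (∀ x ∈ F.DD w, (x + t ∈ G' ↔ x ∈ G)) ∧ F.Pn n w' G'} = ∅ := by
      rw [eq_empty_iff_forall_notMem]
      intro w' hw'
      apply hw'
      obtain ⟨y', t', hyt⟩ := approx ((good_Tn n).sub hB)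
        (F.Dw w' ∪ (F.Dw w ∪ (F.Dw w).image fun x => x + t))
      refine ⟨F.GG y' t', ⟨y', t', rfl⟩, fun x hx => ?_, fun x hx => ?_, B, hB, fun x hx => ?_⟩
      · have h2 := hyt x (Finset.mem_union_right _ (Finset.mem_union_left _ (F.mem_Dw.2 hx)))
        rw [Bool.eq_iff_iff, sh_apply] at h2
        exact h2.trans (hBt x hx).1
      · have h2 := hyt (x + t) (Finset.mem_union_right _ (Finset.mem_union_right _
          (Finset.mem_image_of_mem _ (F.mem_Dw.2 hx))))
        rw [Bool.eq_iff_iff, sh_apply] at h2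
        exact h2.trans (hBt x hx).2
      · have h2 := hyt x (Finset.mem_union_left _ (F.mem_Dw.2 hx))
        rw [Bool.eq_iff_iff, sh_apply] at h2
        exact h2.symm
    rw [h1]
    exact finite_empty
  rec2 := by
    rintro n w G - t w' G' - ⟨C, hC, hCw⟩ h1 h2 h3 h4
    exact ⟨C, hC, fun x hx => ⟨(hCw x (h1 x hx)).trans (h3 x hx),
      (hCw (x + t) (h2 x hx)).trans (h4 x hx)⟩⟩
  start := by
    classical
    intro n
    have h1 : {w | ¬ ∃ G ∈ F.GF, (0 : K) ∈ G ∧ (1 : K) ∉ G ∧ F.Pn n w G} = ∅ := by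
      rw [eq_empty_iff_forall_notMem]
      intro w hw
      apply hw
      obtain ⟨C, hC, hC0, hC1⟩ := F.Tn_start n
      obtain ⟨y, t, hyt⟩ := approx ((good_Tn n).sub hC) (insert 0 (insert 1 (F.Dw w)))
      refine ⟨F.GG y t, ⟨y, t, rfl⟩, ?_, ?_, C, hC, fun x hx => ?_⟩
      · have h2 := hyt 0 (Finset.mem_insert_self _ _)
        rw [Bool.eq_iff_iff, sh_apply] at h2
        exact h2.2 hC0
      · have h2 := hyt 1 (Finset.mem_insert_of_mem (Finset.mem_insert_self _ _))
        rw [Bool.eq_iff_iff, sh_apply] at h2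
        intro h3
        have h4 := h2.1 h3
        rw [hC1] at h4
        exact Bool.false_ne_true h4
      · have h2 := hyt x (Finset.mem_insert_of_mem (Finset.mem_insert_of_mem (F.mem_Dw.2 hx)))
        rw [Bool.eq_iff_iff, sh_apply] at h2
        exact h2.symm
    rw [h1]
    exact finite_empty

/-- The data of the coding. -/
theorem exists_pair : ∃ B C : K → Bool, B ∈ Cl F.D ∧ C ∈ Cl F.D ∧
    (∀ A : Finset K, {u | ∀ a ∈ A, B (a + u) = C a}.Infinite) ∧
    ∀ x x' : K, x ≠ x' → ∃ a, C (a - x) ≠ C (a - x') := by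
  have hinf : Infinite K := F.infinite
  obtain ⟨B, hB, C, hC, hC0, hC1, -, -, hd, hBC⟩ := F.code_start
  refine ⟨B, C, TT_sub_Cl hB, TT_sub_Cl hC, hBC, fun x x' hne => ?_⟩
  by_contra hcon
  push Not at hcon
  apply hne
  have h1 := hd (-x) (-x') (by
    funext a
    simpa [tr, sub_eq_add_neg] using hcon a)
  exact neg_injective h1

end Fam

end Pool.Agent.Lib.MP_097535_lc.FULL
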